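import Pool.Agent.R140.Sph
import Pool.Agent.W555.KS.Defs

set_option autoImplicit false

/-!
# Face numbers of neighborly Eulerian complexes
-/

namespace Pool.Agent.N360.MF

open Finset Pool.Agent.W555.KS Polynomial

lemma Bd0 (n d r : ℕ) : Bd n d 0 r = Nh n d r := by rw [Bd]
lemma Bdz (n d i : ℕ) : Bd n d (i + 1) 0 = Bd n d i 0 := by rw [Bd]
lemma Bds (n d i r : ℕ) : Bd n d (i + 1) (r + 1) = Bd n d (i + 1) r + Bd n d i (r + 1) := by
  rw [Bd]

/-- closed form of the iterated sums -/
lemma Bd_closed (n d : ℕ) : ∀ i r, Bd n d i r =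
    ∑ t ∈ range (r + 1), Nh n d t * (r + i - 1 - t).choose (r - t) := by
  intro i
  induction i with
  | zero =>
    intro r
    rw [Bd0, sum_range_succ, sum_eq_zero, Nat.sub_self, Nat.choose_zero_right, mul_one, zero_add]
    intro t ht
    rw [mem_range] at ht
    rw [Nat.choose_eq_zero_of_lt (by omega), mul_zero]
  | succ i ih =>
    intro r
    induction r with
    | zero =>
      rw [Bdz, ih 0, sum_range_one, sum_range_one, Nat.sub_self, Nat.choose_zero_right,
        Nat.choose_zero_right]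
    | succ r ihr =>
      rw [Bds, ihr, ih (r + 1), sum_range_succ _ (r + 1), sum_range_succ _ (r + 1), ← add_assoc,
        ← sum_add_distrib]
      congr 1
      · refine sum_congr rfl fun t ht => ?_
        rw [mem_range] at ht
        rw [← mul_add]
        congr 1
        obtain ⟨s, rfl⟩ : ∃ s, r = t + s := ⟨r - t, by omega⟩
        rw [show t + s + (i + 1) - 1 - t = s + i by omega, show t + s - t = s by omega,
          show t + s + 1 + i - 1 - t = s + i by omega, show t + s + 1 - t = s + 1 by omega,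
          show t + s + 1 + (i + 1) - 1 - t = (s + i) + 1 by omega, Nat.choose_succ_succ]
      · rw [Nat.sub_self, Nat.choose_zero_right, Nat.choose_zero_right]

lemma Bd_low (n d k : ℕ) (hd : d = 2 * k + 1) (hn : d < n) : ∀ i r, r ≤ k →
    Bd n d i r = (n - d - 1 + i + r).choose r := by
  intro i
  induction i with
  | zero =>
    intro r hr
    rw [Bd0]
    unfold Nh
    rw [if_neg (by omega), min_eq_left (by omega), add_zero]
  | succ i ih =>
    intro r
    induction r with
    | zero =>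
      intro _
      rw [Bdz, ih 0 (by omega), Nat.choose_zero_right, Nat.choose_zero_right]
    | succ r ihr =>
      intro hr
      rw [Bds, ihr (by omega), ih (r + 1) hr]
      rw [show n - d - 1 + (i + 1) + (r + 1) = (n - d - 1 + (i + 1) + r) + 1 by omega,
        Nat.choose_succ_succ, show n - d - 1 + i + (r + 1) = n - d - 1 + (i + 1) + r by omega]

/-- the polynomial with the face numbers of the cyclic polytope -/
noncomputable def cP (n d : ℕ) : ℤ[X] :=
  ∑ t ∈ range (d + 1), (Nh n d t : ℤ[X]) * (X ^ t * (1 + X) ^ (d - t))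

lemma Nh_symm (n d t : ℕ) (ht : t ≤ d) : Nh n d (d - t) = Nh n d t := by
  unfold Nh
  rw [if_neg (by omega), if_neg (by omega), min_comm, show d - (d - t) = t by omega]

lemma cP_symm (n d : ℕ) : (cP n d).comp (-1 - X) = (-1) ^ d * cP n d := by
  unfold cP
  have e0 : (∑ t ∈ range (d + 1), (Nh n d t : ℤ[X]) * (X ^ t * (1 + X) ^ (d - t))).comp (-1 - X) =
    ∑ t ∈ range (d + 1), ((Nh n d t : ℤ[X]) * (X ^ t * (1 + X) ^ (d - t))).comp (-1 - X) :=
    map_sum (Polynomial.compRingHom (-1 - X : ℤ[X])) _ _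
  rw [e0]
  have hr := sum_range_reflect (fun t => (-1 : ℤ[X]) ^ d * ((Nh n d t : ℤ[X]) *
    (X ^ t * (1 + X) ^ (d - t)))) (d + 1)
  rw [mul_sum, ← hr]
  refine sum_congr rfl fun t ht => ?_
  rw [mem_range] at ht
  rw [show d + 1 - 1 - t = d - t by omega, Nh_symm n d t (by omega), show d - (d - t) = t by omega]
  rw [mul_comp, natCast_comp, mul_comp, X_pow_comp, pow_comp, add_comp, one_comp, X_comp]
  have e1 : (1 + (-1 - X) : ℤ[X]) = (-1) * X := by ring
  have e2 : (-1 - X : ℤ[X]) = (-1) * (1 + X) := by ring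
  rw [e1, e2, mul_pow, mul_pow]
  have e3 : (-1 : ℤ[X]) ^ d = (-1) ^ t * (-1) ^ (d - t) := by
    rw [← pow_add]
    congr 1
    omega
  rw [e3]
  ring

lemma cP_coeff (n d j : ℕ) (hj : j ≤ d) : (cP n d).coeff j = (Bd n d (d + 1 - j) j : ℤ) := by
  rw [Bd_closed]
  unfold cP
  rw [finsetSum_coeff]
  have key : ∀ t ∈ range (d + 1), ((Nh n d t : ℤ[X]) * (X ^ t * (1 + X) ^ (d - t))).coeff j =
      if t ≤ j then (Nh n d t : ℤ) * ((d - t).choose (j - t) : ℤ) else 0 := by
    intro t _
    rw [← map_natCast C (Nh n d t), coeff_C_mul, coeff_X_pow_mul']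
    split_ifs with h
    · rw [coeff_one_add_X_pow]
    · rw [mul_zero]
  rw [sum_congr rfl key, ← sum_filter]
  push_cast
  refine sum_congr ?_ fun t ht => ?_
  · ext t
    simp only [mem_filter, mem_range]
    omega
  · rw [mem_range] at ht
    rw [show j + (d + 1 - j) - 1 - t = d - t by omega]

lemma cP_natDegree (n d : ℕ) : (cP n d).natDegree ≤ d := by
  unfold cP
  refine natDegree_sum_le_of_forall_le _ _ fun t ht => ?_
  rw [mem_range] at ht
  have h1 : (1 + X : ℤ[X]).natDegree ≤ 1 := by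
    rw [add_comm]
    exact (natDegree_X_add_C (1 : ℤ)).le
  have h2 : ((1 + X : ℤ[X]) ^ (d - t)).natDegree ≤ (d - t) * 1 :=
    natDegree_pow_le.trans (Nat.mul_le_mul_left _ h1)
  have h3 : (X ^ t : ℤ[X]).natDegree ≤ t := (natDegree_X_pow t).le
  have h4 := natDegree_mul_le (p := (Nh n d t : ℤ[X])) (q := X ^ t * (1 + X) ^ (d - t))
  have h5 := natDegree_mul_le (p := (X ^ t : ℤ[X])) (q := (1 + X) ^ (d - t))
  rw [natDegree_natCast] at h4
  omega

/-- number of faces with `j` elements -/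
def nf {n : ℕ} (L : Finset (Finset (Fin n))) (j : ℕ) : ℕ := (L.filter (fun σ => σ.card = j)).card

/-- face polynomial -/
noncomputable def fP {n : ℕ} (L : Finset (Finset (Fin n))) : ℤ[X] := ∑ F ∈ L, (X : ℤ[X]) ^ F.card

lemma fP_coeff {n : ℕ} (L : Finset (Finset (Fin n))) (j : ℕ) : (fP L).coeff j = nf L j := by
  unfold fP nf
  rw [finsetSum_coeff]
  simp only [coeff_X_pow]
  rw [card_filter]
  push_cast
  refine sum_congr rfl fun F _ => ?_
  by_cases h : F.card = j
  · rw [if_pos h, if_pos h.symm]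
  · rw [if_neg h, if_neg (fun h' => h h'.symm)]

lemma fP_symm {n d : ℕ} {L : Finset (Finset (Fin n))} (hL : IsCx L)
    (h : ∀ σ ∈ L, ∑ F ∈ L.filter (fun F => σ ⊆ F), (-1 : ℤ) ^ F.card = (-1) ^ d) :
    (fP L).comp (-1 - X) = (-1) ^ d * fP L := by
  classical
  unfold fP
  rw [show (∑ F ∈ L, (X : ℤ[X]) ^ F.card).comp (-1 - X) = ∑ F ∈ L, ((X : ℤ[X]) ^ F.card).comp (-1 - X) from map_sum (Polynomial.compRingHom (-1 - X : ℤ[X])) _ _]
  simp only [X_pow_comp]
  have h1 : ∀ F : Finset (Fin n), (-1 - X : ℤ[X]) ^ F.card =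
      ∑ G ∈ F.powerset, (-1) ^ F.card * X ^ G.card := by
    intro F
    rw [← mul_sum]
    have h2 := sum_pow_mul_eq_add_pow (X : ℤ[X]) 1 F
    simp only [one_pow, mul_one] at h2
    rw [h2, ← mul_pow]
    congr 1
    ring
  rw [sum_congr rfl (fun F _ => h1 F)]
  rw [sum_sigma']
  have h2 : ∑ x ∈ L.sigma fun F => F.powerset,
      ((-1) ^ x.1.card * X ^ x.2.card : ℤ[X]) =
      ∑ G ∈ L, ∑ F ∈ L.filter (fun F => G ⊆ F),
        (-1) ^ F.card * X ^ G.card := by
    rw [sum_sigma']
    refine sum_bij' (fun x _ => ⟨x.2, x.1⟩) (fun x _ => ⟨x.2, x.1⟩) ?_ ?_ ?_ ?_ ?_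
    · rintro ⟨F, G⟩ hx
      simp only [mem_sigma, mem_powerset, mem_filter] at hx ⊢
      exact ⟨hL.2 F hx.1 G hx.2, hx.1, hx.2⟩
    · rintro ⟨F, G⟩ hx
      simp only [mem_sigma, mem_powerset, mem_filter] at hx ⊢
      exact ⟨hx.2.1, hx.2.2⟩
    · intro x _; rfl
    · intro x _; rfl
    · intro x _; rfl
  rw [h2, mul_sum]
  refine sum_congr rfl fun G hG => ?_
  rw [← sum_mul]
  congr 1
  have := congrArg (Int.castRingHom ℤ[X]) (h G hG)
  rw [map_sum] at this
  simpa using this

/-- face numbers of `k`-neighborly Eulerian complexes of dimension `2k` -/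
theorem faces_eq {n d k : ℕ} (hd : d = 2 * k + 1) (hn : d < n) {L : Finset (Finset (Fin n))}
    (hL : IsCx L) (hc : ∀ σ ∈ L, σ.card ≤ d)
    (h : ∀ σ ∈ L, ∑ F ∈ L.filter (fun F => σ ⊆ F), (-1 : ℤ) ^ F.card = (-1) ^ d)
    (hk : ∀ σ : Finset (Fin n), σ.card ≤ k → σ ∈ L) (j : ℕ) (hj : j ≤ d) :
    nf L j = Bd n d (d + 1 - j) j := by
  have h0 : fP L - cP n d = 0 := by
    refine R140.Sph.eq_zero_of_symm (d := d) ?_ ?_ ?_
    · refine (natDegree_sub_le _ _).trans (max_le ?_ (cP_natDegree n d))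
      unfold fP
      refine natDegree_sum_le_of_forall_le _ _ fun F hF => ?_
      rw [natDegree_X_pow]
      exact hc F hF
    · rw [sub_comp, fP_symm hL h, cP_symm]
      ring
    · intro j hj
      rw [coeff_sub, fP_coeff, cP_coeff n d j (by omega), Bd_low n d k hd hn _ _ (by omega)]
      have e1 : nf L j = n.choose j := by
        unfold nf
        have : L.filter (fun σ => σ.card = j) = powersetCard j univ := by
          ext σ
          rw [mem_filter, mem_powersetCard]
          constructor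
          · exact fun h => ⟨subset_univ _, h.2⟩
          · exact fun h => ⟨hk σ (by omega), h.2⟩
        rw [this, card_powersetCard, card_univ, Fintype.card_fin]
      rw [e1, show n - d - 1 + (d + 1 - j) + j = n by omega, sub_self]
  have h1 := congrArg (fun p => p.coeff j) h0
  simp only [coeff_sub, coeff_zero] at h1
  rw [fP_coeff, cP_coeff n d j hj] at h1
  omega

end Pool.Agent.N360.MF
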