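import Pool.Agent.N360.MF.Dual
import Pool.Agent.N360.MF.Num

set_option autoImplicit false
set_option linter.unusedSectionVars false

namespace Pool.Agent.N360.MF

open MvPolynomial Finset Pool.Agent.W555.KS

/-- the forms -/
noncomputable def aa (n d : ℕ) (i : Fin d) (v : Fin n) : Kf (d + 1) n := gen (d + 1) n i.castSucc v

/-- the Lefschetz form -/
noncomputable def ww (n d : ℕ) (v : Fin n) : Kf (d + 1) n := gen (d + 1) n (Fin.last d) v

lemma Ij_eq (n d : ℕ) (L : Finset (Finset (Fin n))) :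
    Ij n d d L = Ideal.span (gens L (aa n d)) := by
  unfold Ij srI gens
  rw [← Ideal.span_union]
  congr 2
  ext p
  constructor
  · rintro ⟨i, hi, rfl⟩
    exact ⟨⟨i, hi⟩, rfl⟩
  · rintro ⟨i, rfl⟩
    exact ⟨i.castSucc, i.2, rfl⟩

lemma infinite_Kf (m n : ℕ) (hm : 0 < m) (hn : 0 < n) : Infinite (Kf m n) := by
  have : Nonempty (Fin m × Fin n) := ⟨(⟨0, hm⟩, ⟨0, hn⟩)⟩
  have : Infinite (MvPolynomial (Fin m × Fin n) (ZMod 2)) := MvPolynomial.infinite_of_nonempty _ _
  exact Infinite.of_injective _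
    (IsFractionRing.injective (MvPolynomial (Fin m × Fin n) (ZMod 2)) (Kf m n))

lemma exists_points (n d : ℕ) (hn : 0 < n) (Y : Finset (Finset (Fin n)))
    (hY : ∀ F ∈ Y, F.card = d) : ∃ (u : Fin d → Kf (d + 1) n) (y : {F // F ∈ Y} → Fin n → Kf (d + 1) n),
      (∀ F v, v ∈ F.1 → y F v ≠ 0) ∧ (∀ F v, v ∉ F.1 → y F v = 0) ∧
      ∀ F i, ∑ v, aa n d i v * y F v = u i := by
  classical
  have hinf := infinite_Kf (d + 1) n (by omega) hn
  let g : ∀ F : {F // F ∈ Y}, Fin d ↪o Fin n := fun F => F.1.orderEmbOfFin (hY F.1 F.2)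
  let M : {F // F ∈ Y} → Matrix (Fin d) (Fin d) (Kf (d + 1) n) := fun F =>
    Matrix.of fun i j => aa n d i (g F j)
  have hM : ∀ F, IsUnit (M F).det := by
    intro F
    exact isUnit_iff_ne_zero.2 (W374.KS.minor (d + 1) n d Fin.castSucc (g F)
      (Fin.castSucc_injective d) (g F).injective)
  let φ : {F // F ∈ Y} × Fin d → Module.Dual (Kf (d + 1) n) (Fin d → Kf (d + 1) n) := fun x =>
    (LinearMap.proj x.2) ∘ₗ (Matrix.mulVecLin (M x.1)⁻¹)
  have hφ : ∀ x u, φ x u = ((M x.1)⁻¹.mulVec u) x.2 := fun x u => rfl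
  obtain ⟨u, hu⟩ := Module.Dual.exists_forall_ne_zero_of_forall_exists φ (by
    rintro ⟨F, j⟩
    refine ⟨(M F).mulVec (Pi.single j 1), ?_⟩
    rw [hφ]
    show ((M F)⁻¹.mulVec ((M F).mulVec (Pi.single j 1))) j ≠ 0
    rw [Matrix.mulVec_mulVec, Matrix.nonsing_inv_mul _ (hM F), Matrix.one_mulVec,
      Pi.single_eq_same]
    exact one_ne_zero)
  refine ⟨u, fun F v => ∑ j, if g F j = v then ((M F)⁻¹.mulVec u) j else 0, ?_, ?_, ?_⟩
  · intro F v hv
    have : v ∈ Set.range (g F) := by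
      rw [Finset.range_orderEmbOfFin]
      exact hv
    obtain ⟨j, rfl⟩ := this
    beta_reduce
    rw [sum_eq_single j]
    · rw [if_pos rfl]
      exact hu (F, j)
    · intro b _ hb
      rw [if_neg (fun h => hb ((g F).injective h))]
    · intro h
      exact absurd (mem_univ _) h
  · intro F v hv
    refine sum_eq_zero fun j _ => if_neg ?_
    rintro rfl
    exact hv (Finset.orderEmbOfFin_mem _ _ _)
  · intro F i
    have e1 : ∀ v, aa n d i v * (∑ j, if g F j = v then ((M F)⁻¹.mulVec u) j else 0) =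
        ∑ j, if g F j = v then aa n d i v * ((M F)⁻¹.mulVec u) j else 0 := by
      intro v
      rw [mul_sum]
      exact sum_congr rfl fun j _ => by rw [mul_ite, mul_zero]
    rw [sum_congr rfl fun v _ => e1 v, sum_comm]
    have e2 : ∀ j, (∑ v, if g F j = v then aa n d i v * ((M F)⁻¹.mulVec u) j else 0) =
        M F i j * ((M F)⁻¹.mulVec u) j := by
      intro j
      rw [sum_ite_eq]
      simp only [mem_univ, if_true]
      rfl
    rw [sum_congr rfl fun j _ => e2 j]
    show ((M F).mulVec ((M F)⁻¹.mulVec u)) i = u i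
    rw [Matrix.mulVec_mulVec, Matrix.mul_nonsing_inv _ (hM F), Matrix.one_mulVec]

/-- combinatorial hypotheses on the complex -/
structure Good {n : ℕ} (k : ℕ) (L : Finset (Finset (Fin n))) : Prop where
  cx : IsCx L
  card_le : ∀ σ ∈ L, σ.card ≤ 2 * k + 1
  euler : ∀ σ ∈ L, ∑ F ∈ L.filter (fun F => σ ⊆ F), (-1 : ℤ) ^ F.card = (-1) ^ (2 * k + 1)
  ridge : ∀ ρ ∈ L, ρ.card = 2 * k → ∃ u v, u ≠ v ∧ ∀ x, x ∉ ρ ∧ insert x ρ ∈ L ↔ x = u ∨ x = v
  conn : ∀ S : Finset (Fin n) → Prop, (∀ ρ ∈ L, ρ.card = 2 * k → ∀ u v, u ∉ ρ → v ∉ ρ →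
    insert u ρ ∈ L → insert v ρ ∈ L → S (insert u ρ) → S (insert v ρ)) →
    ∀ F ∈ L, F.card = 2 * k + 1 → ∀ F' ∈ L, F'.card = 2 * k + 1 → S F → S F'
  nb : ∀ σ : Finset (Fin n), σ.card ≤ k → σ ∈ L
  lef : ConeEmb L (2 * k + 1)

lemma sum_Nh (n k : ℕ) : 2 * ∑ i ∈ range (k + 1), Nh n (2 * k + 1) i =
    ∑ i ∈ range (2 * k + 2), Nh n (2 * k + 1) i := by
  rw [show 2 * k + 2 = (k + 1) + (k + 1) by ring, sum_range_add (Nh n (2 * k + 1)) (k + 1) (k + 1),
    two_mul]
  congr 1
  rw [← sum_range_reflect]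
  refine sum_congr rfl fun i hi => ?_
  rw [mem_range] at hi
  rw [← Nh_symm n (2 * k + 1) (k + 1 + i) (by omega)]
  congr 1
  omega

/-- duality for the complex -/
theorem dual_L {n k : ℕ} (hn : 2 * k + 1 < n) {L : Finset (Finset (Fin n))} (h : Good k L) :
    (∀ i, i ≤ 2 * k + 1 → dimQ (Ideal.span (gens L (aa n (2 * k + 1)))) i = Nh n (2 * k + 1) i) ∧
    ∃ Λ : MvPolynomial (Fin n) (Kf (2 * k + 1 + 1) n) →ₗ[Kf (2 * k + 1 + 1) n] Kf (2 * k + 1 + 1) n,
      (∀ p ∈ Ideal.span (gens L (aa n (2 * k + 1))), Λ p = 0) ∧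
      ∀ q : MvPolynomial (Fin n) (Kf (2 * k + 1 + 1) n), q.IsHomogeneous (k + 1) →
        (∀ p : MvPolynomial (Fin n) (Kf (2 * k + 1 + 1) n), p.IsHomogeneous k → Λ (q * p) = 0) →
        q ∈ Ideal.span (gens L (aa n (2 * k + 1))) := by
  classical
  obtain ⟨u, y, hy1, hy2, hy3⟩ := exists_points n (2 * k + 1) (by omega)
    (L.filter (fun F => F.card = 2 * k + 1)) (fun F hF => (mem_filter.1 hF).2)
  have hprod : ∀ (F : {F // F ∈ L.filter (fun F => F.card = 2 * k + 1)}) (σ : Finset (Fin n)),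
      ∏ v ∈ σ, y F v ≠ 0 ↔ σ ⊆ F.1 := by
    intro F σ
    rw [prod_ne_zero_iff]
    constructor
    · intro h v hv
      by_contra h2
      exact h v hv (hy2 F v h2)
    · intro h v hv
      exact hy1 F v (h hv)
  have hcard : ∑ i ∈ range (2 * k + 1 + 1), Nh n (2 * k + 1) i =
      Fintype.card ↥(L.filter (fun F => F.card = 2 * k + 1)) := by
    rw [Fintype.card_coe]
    have e1 := faces_eq rfl hn h.cx h.card_le h.euler h.nb (2 * k + 1) le_rfl
    unfold nf at e1
    rw [e1, Bd_closed]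
    refine sum_congr rfl fun t ht => ?_
    rw [show 2 * k + 1 + (2 * k + 1 + 1 - (2 * k + 1)) - 1 - t = 2 * k + 1 - t by omega,
      Nat.choose_self, mul_one]
  refine duality L (aa n (2 * k + 1)) y u k rfl ?_ hy3 ?_ ?_ (Nh n (2 * k + 1)) ?_ hcard ?_ ?_
  · intro F σ hσ
    by_contra h2
    exact hσ (h.cx.2 F.1 (mem_filter.1 F.2).1 σ ((hprod F σ).1 h2))
  · intro F
    refine ⟨F.1, (mem_filter.1 F.2).2.le, fun F' => ?_⟩
    rw [hprod]
    constructor
    · intro h2
      apply Subtype.ext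
      refine (eq_of_subset_of_card_le h2 ?_).symm
      rw [(mem_filter.1 F.2).2, (mem_filter.1 F'.2).2]
    · rintro rfl
      exact Subset.refl _
  · intro S hS F F' hSF
    have h5 := h.conn (fun G => ∀ hG : G ∈ L.filter (fun F => F.card = 2 * k + 1), S ⟨G, hG⟩) ?_
      F.1 (mem_filter.1 F.2).1 (mem_filter.1 F.2).2 F'.1 (mem_filter.1 F'.2).1
      (mem_filter.1 F'.2).2 (fun _ => hSF)
    · exact h5 F'.2
    · intro ρ hρ hρc u v hu hv huL hvL hSu hvm
      have hum : insert u ρ ∈ L.filter (fun F => F.card = 2 * k + 1) :=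
        mem_filter.2 ⟨huL, by rw [card_insert_of_notMem hu, hρc]⟩
      by_cases huv : u = v
      · subst huv
        exact hSu hvm
      · refine hS ⟨insert u ρ, hum⟩ ⟨insert v ρ, hvm⟩ ⟨?_, ρ, by omega, ?_⟩ (hSu hum)
        · intro h6
          have h7 : insert u ρ = insert v ρ := congrArg Subtype.val h6
          have h8 : u ∈ insert v ρ := by
            rw [← h7]
            exact mem_insert_self _ _
          rcases mem_insert.1 h8 with h9 | h9
          · exact huv h9
          · exact hu h9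
        · intro F''
          rw [hprod]
          obtain ⟨u', v', huv', h6⟩ := h.ridge ρ hρ hρc
          have hu' := (h6 u).1 ⟨hu, huL⟩
          have hv' := (h6 v).1 ⟨hv, hvL⟩
          constructor
          · intro h7
            obtain ⟨x, hx, hx2⟩ : ∃ x, x ∉ ρ ∧ insert x ρ = F''.1 := by
              have h8 : (F''.1 \ ρ).card = 1 := by
                rw [card_sdiff_of_subset h7, (mem_filter.1 F''.2).2, hρc]
                omega
              obtain ⟨x, hx⟩ := card_eq_one.1 h8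
              refine ⟨x, ?_, ?_⟩
              · have : x ∈ F''.1 \ ρ := by rw [hx]; exact mem_singleton_self x
                exact (mem_sdiff.1 this).2
              · rw [← sdiff_union_of_subset h7, hx]
                rfl
            have h8 := (h6 x).1 ⟨hx, by rw [hx2]; exact (mem_filter.1 F''.2).1⟩
            have h9 : x = u ∨ x = v := by
              rcases hu' with rfl | rfl <;> rcases hv' with rfl | rfl <;> tauto
            rcases h9 with rfl | rfl
            · left
              exact Subtype.ext hx2.symm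
            · right
              exact Subtype.ext hx2.symm
          · rintro (rfl | rfl)
            · exact subset_insert _ _
            · exact subset_insert _ _
  · intro i _
    rw [← Ij_eq]
    exact dtop' W357.KS.Fan.fan halg' n (2 * k + 1) L hn h.cx h.lef i
  · unfold Nh
    rw [if_neg (by omega), Nat.sub_self, Nat.min_zero, Nat.choose_zero_right]
  · rw [sum_Nh, hcard]

end Pool.Agent.N360.MF
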