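import Mathlib

set_option autoImplicit false

/-!
# The commutator argument

`R = P / I`, `I` generated in degrees at most `k + 1`, multiplication by the linear form `ω` is
bijective from degree `k` to degree `k + 1`, and the form `Λ (ω a b)` on degree `k` is
nondegenerate. Then the kernel of `ω ^ 2` on degree `k` is not one-dimensional.
-/

namespace Pool.Agent.N360.MF

open MvPolynomial

variable {K : Type} [Field K] {n : ℕ}

/-- linear form -/
noncomputable def lin (w : Fin n → K) : MvPolynomial (Fin n) K := ∑ v, C (w v) * X v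

lemma lin_hom (w : Fin n → K) : (lin w).IsHomogeneous 1 := by
  unfold lin
  refine IsHomogeneous.sum _ _ _ fun v _ => ?_
  simpa using (isHomogeneous_C (Fin n) (w v)).mul (isHomogeneous_X K v)

lemma sub_single_add {m : Fin n →₀ ℕ} {j : Fin n} (h : m j ≠ 0) :
    Finsupp.single j 1 + (m - Finsupp.single j 1) = m := by
  ext a
  rw [Finsupp.add_apply, Finsupp.tsub_apply]
  by_cases haj : a = j
  · subst haj
    rw [Finsupp.single_eq_same]
    omega
  · rw [Finsupp.single_eq_of_ne haj]
    omega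

lemma X_mul_monomial (i : Fin n) (m : Fin n →₀ ℕ) :
    (X i * monomial m 1 : MvPolynomial (Fin n) K) = monomial (Finsupp.single i 1 + m) 1 := by
  rw [X, monomial_mul, one_mul]

lemma exists_Pi {M : Type} [AddCommGroup M] [Module K M] (k : ℕ)
    (ψ : Fin n → (MvPolynomial (Fin n) K →ₗ[K] M))
    (h0 : ∀ i p e, p.IsHomogeneous e → e ≠ k + 1 → ψ i p = 0)
    (hc : ∀ i j (q : MvPolynomial (Fin n) K), q.IsHomogeneous k → ψ i (X j * q) = ψ j (X i * q)) :
    ∃ Pi : MvPolynomial (Fin n) K →ₗ[K] M, (∀ i p, Pi (X i * p) = ψ i p) ∧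
      ∀ e (p : MvPolynomial (Fin n) K), p.IsHomogeneous e → e ≤ k + 1 → Pi p = 0 := by
  classical
  obtain ⟨f, hf⟩ : ∃ f : (Fin n →₀ ℕ) → M, ∀ m, f m = if h : ∃ i, m i ≠ 0 then
      ψ h.choose (monomial (m - Finsupp.single h.choose 1) 1) else 0 := ⟨_, fun _ => rfl⟩
  obtain ⟨Pi, hPi⟩ : ∃ Pi : MvPolynomial (Fin n) K →ₗ[K] M,
      ∀ m : Fin n →₀ ℕ, Pi (monomial m 1) = f m := by
    refine ⟨(basisMonomials (Fin n) K).constr K f, fun m => ?_⟩
    have := (basisMonomials (Fin n) K).constr_basis K f m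
    rw [coe_basisMonomials] at this
    exact this
  have hf0 : ∀ m : Fin n →₀ ℕ, m.degree ≠ k + 2 → f m = 0 := by
    intro m hm
    rw [hf]
    split_ifs with h
    · refine h0 _ _ (m - Finsupp.single h.choose 1).degree (isHomogeneous_monomial _ rfl) ?_
      have h2 := congrArg Finsupp.degree (sub_single_add h.choose_spec)
      rw [map_add, Finsupp.degree_single] at h2
      omega
    · rfl
  refine ⟨Pi, ?_, ?_⟩
  · intro i
    have : Pi ∘ₗ LinearMap.mulLeft K (X i) = ψ i := by
      refine (basisMonomials (Fin n) K).ext fun m => ?_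
      rw [coe_basisMonomials]
      rw [LinearMap.comp_apply, LinearMap.mulLeft_apply, X_mul_monomial, hPi]
      by_cases hdeg : m.degree = k + 1
      · have hex : ∃ j, (Finsupp.single i 1 + m : Fin n →₀ ℕ) j ≠ 0 := ⟨i, by
          rw [Finsupp.add_apply, Finsupp.single_eq_same]; omega⟩
        rw [hf, dif_pos hex]
        obtain ⟨j, hj⟩ : ∃ j, j = hex.choose := ⟨_, rfl⟩
        have hjne : (Finsupp.single i 1 + m : Fin n →₀ ℕ) j ≠ 0 := by rw [hj]; exact hex.choose_spec
        rw [← hj]
        by_cases hij : i = j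
        · rw [← hij]
          congr 2
          ext a
          simp
        · have hmj : m j ≠ 0 := by
            have : (Finsupp.single i 1 + m : Fin n →₀ ℕ) j = m j := by
              rw [Finsupp.add_apply, Finsupp.single_eq_of_ne (Ne.symm hij), zero_add]
            rwa [this] at hjne
          have e0 := sub_single_add hmj
          obtain ⟨m', hm'⟩ : ∃ m', m' = m - Finsupp.single j 1 := ⟨_, rfl⟩
          rw [← hm'] at e0
          subst e0
          have e2 : Finsupp.single i 1 + (Finsupp.single j 1 + m') - Finsupp.single j 1 =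
              Finsupp.single i 1 + m' := by
            ext a
            rw [Finsupp.tsub_apply, Finsupp.add_apply, Finsupp.add_apply, Finsupp.add_apply]
            omega
          have hd : m'.degree = k := by
            rw [map_add, Finsupp.degree_single] at hdeg
            omega
          rw [e2, ← X_mul_monomial, hc j i _ (isHomogeneous_monomial _ hd), X_mul_monomial]
      · rw [hf0 _ (by rw [map_add, Finsupp.degree_single]; omega),
          h0 i _ m.degree (isHomogeneous_monomial _ rfl) hdeg]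
    intro p
    exact LinearMap.congr_fun this p
  · intro e p hp he
    rw [p.as_sum, map_sum]
    refine Finset.sum_eq_zero fun m hm => ?_
    have hmd : m.degree = e := by
      have := hp (mem_support_iff.1 hm)
      rw [← this, Finsupp.degree_eq_weight_one]
      rfl
    have e1 : (monomial m (coeff m p) : MvPolynomial (Fin n) K) = coeff m p • monomial m 1 := by
      rw [smul_monomial, smul_eq_mul, mul_one]
    rw [e1, map_smul, hPi, hf0 m (by omega), smul_zero]

lemma Pi_ideal {M : Type} [AddCommGroup M] [Module K M] (k : ℕ) (G : Set (MvPolynomial (Fin n) K))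
    (hG : ∀ g ∈ G, ∃ e, e ≤ k + 1 ∧ g.IsHomogeneous e)
    (ψ : Fin n → (MvPolynomial (Fin n) K →ₗ[K] M))
    (h0 : ∀ i p e, p.IsHomogeneous e → e ≠ k + 1 → ψ i p = 0)
    (h0I : ∀ i (p : MvPolynomial (Fin n) K), p ∈ Ideal.span G → p.IsHomogeneous (k + 1) → ψ i p = 0)
    (Pi : MvPolynomial (Fin n) K →ₗ[K] M) (hPiX : ∀ i p, Pi (X i * p) = ψ i p)
    (hPi0 : ∀ e (p : MvPolynomial (Fin n) K), p.IsHomogeneous e → e ≤ k + 1 → Pi p = 0)
    (p : MvPolynomial (Fin n) K) (hp : p ∈ Ideal.span G) : Pi p = 0 := by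
  classical
  have key : ∀ g ∈ G, ∀ m : Fin n →₀ ℕ, Pi (monomial m 1 * g) = 0 := by
    intro g hg m
    obtain ⟨e, he, hge⟩ := hG g hg
    by_cases hm : ∃ j, m j ≠ 0
    · obtain ⟨j, hj⟩ := hm
      rw [← sub_single_add hj, ← X_mul_monomial, mul_assoc, hPiX]
      have hh : (monomial (m - Finsupp.single j 1) 1 * g).IsHomogeneous
          ((m - Finsupp.single j 1).degree + e) := (isHomogeneous_monomial _ rfl).mul hge
      by_cases h : (m - Finsupp.single j 1).degree + e = k + 1
      · rw [h] at hh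
        exact h0I j _ (Ideal.mul_mem_left _ _ (Ideal.subset_span hg)) hh
      · exact h0 j _ _ hh h
    · have hm0 : m = 0 := by
        ext a
        by_contra h
        exact hm ⟨a, h⟩
      subst hm0
      refine hPi0 e _ ?_ he
      have : (monomial (0 : Fin n →₀ ℕ) (1 : K) * g) = g := by
        rw [show (monomial (0 : Fin n →₀ ℕ) (1 : K)) = 1 from rfl, one_mul]
      rw [this]
      exact hge
  have key2 : ∀ g ∈ G, ∀ a : MvPolynomial (Fin n) K, Pi (a * g) = 0 := by
    intro g hg a
    have h2 : Pi ∘ₗ LinearMap.mulRight K g = 0 := by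
      refine (basisMonomials (Fin n) K).ext fun m => ?_
      rw [coe_basisMonomials]
      exact key g hg m
    exact LinearMap.congr_fun h2 a
  have key3 : ∀ p ∈ Ideal.span G, ∀ a : MvPolynomial (Fin n) K, Pi (a * p) = 0 := by
    intro p hp
    refine Submodule.span_induction ?_ ?_ ?_ ?_ hp
    · exact fun g hg a => key2 g hg a
    · intro a
      rw [mul_zero, map_zero]
    · intro x y _ _ hx hy a
      rw [mul_add, map_add, hx, hy, add_zero]
    · intro b x _ hx a
      rw [smul_eq_mul, ← mul_assoc]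
      exact hx _
  have := key3 p hp 1
  rwa [one_mul] at this

section core

variable (k : ℕ) (I : Ideal (MvPolynomial (Fin n) K))

/-- the degree `j` part of the quotient -/
noncomputable def Rj (j : ℕ) : Submodule K (MvPolynomial (Fin n) K ⧸ I) :=
  (homogeneousSubmodule (Fin n) K j).map (Ideal.Quotient.mkₐ K I).toLinearMap

lemma mk_mem_Rj {j : ℕ} {p : MvPolynomial (Fin n) K} (hp : p.IsHomogeneous j) :
    Ideal.Quotient.mk I p ∈ Rj I j :=
  ⟨p, (mem_homogeneousSubmodule _ _).2 hp, rfl⟩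

lemma exists_of_mem_Rj {j : ℕ} {a : MvPolynomial (Fin n) K ⧸ I} (ha : a ∈ Rj I j) :
    ∃ p : MvPolynomial (Fin n) K, p.IsHomogeneous j ∧ Ideal.Quotient.mk I p = a := by
  obtain ⟨p, hp, h⟩ := ha
  exact ⟨p, (mem_homogeneousSubmodule _ _).1 hp, h⟩

lemma mul_mem_Rj {i j : ℕ} {p : MvPolynomial (Fin n) K} (hp : p.IsHomogeneous i)
    {a : MvPolynomial (Fin n) K ⧸ I} (ha : a ∈ Rj I j) :
    Ideal.Quotient.mk I p * a ∈ Rj I (i + j) := by
  obtain ⟨q, hq, rfl⟩ := exists_of_mem_Rj I ha
  rw [← map_mul]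
  exact mk_mem_Rj I (hp.mul hq)

/-- multiplication by the class of a linear form -/
noncomputable def mulR {p : MvPolynomial (Fin n) K} (hp : p.IsHomogeneous 1) (j : ℕ) :
    Rj I j →ₗ[K] Rj I (j + 1) where
  toFun a := ⟨Ideal.Quotient.mk I p * a.1, by
    have := mul_mem_Rj I hp a.2
    rwa [add_comm] at this⟩
  map_add' a b := Subtype.ext (by
    show _ * (a.1 + b.1) = _ * a.1 + _ * b.1
    rw [mul_add])
  map_smul' c a := Subtype.ext (by
    show _ * (c • a.1) = c • (_ * a.1)
    rw [mul_smul_comm])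

theorem core (G : Set (MvPolynomial (Fin n) K)) (hIG : I = Ideal.span G)
    (hG : ∀ g ∈ G, ∃ e, e ≤ k + 1 ∧ g.IsHomogeneous e)
    (w : Fin n → K)
    (hs : ∀ p : MvPolynomial (Fin n) K, p.IsHomogeneous (k + 1) →
      ∃ q : MvPolynomial (Fin n) K, q.IsHomogeneous k ∧ p - lin w * q ∈ I)
    (hi : ∀ q : MvPolynomial (Fin n) K, q.IsHomogeneous k → lin w * q ∈ I → q ∈ I)
    (Λ : MvPolynomial (Fin n) K →ₗ[K] K) (hΛ : ∀ p ∈ I, Λ p = 0)
    (hnd : ∀ q : MvPolynomial (Fin n) K, q.IsHomogeneous k →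
      (∀ p : MvPolynomial (Fin n) K, p.IsHomogeneous k → Λ (lin w * q * p) = 0) → q ∈ I)
    (w0 : MvPolynomial (Fin n) K) (hw0 : w0.IsHomogeneous k)
    (h1 : lin w * (lin w * w0) ∈ I) (h2 : w0 ∉ I)
    (h3 : ∀ q : MvPolynomial (Fin n) K, q.IsHomogeneous k →
      lin w * (lin w * q) ∈ I → ∃ c : K, q - C c * w0 ∈ I) : False := by
  classical
  set ωb := Ideal.Quotient.mk I (lin w) with hωb
  -- the equivalence
  have hinj : Function.Injective (mulR I (lin_hom w) k) := by
    rw [← LinearMap.ker_eq_bot, LinearMap.ker_eq_bot']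
    intro a ha
    obtain ⟨q, hq, hqa⟩ := exists_of_mem_Rj I a.2
    have h4 : ωb * a.1 = 0 := congrArg Subtype.val ha
    rw [← hqa, hωb, ← map_mul, Ideal.Quotient.eq_zero_iff_mem] at h4
    have h5 := hi q hq h4
    apply Subtype.ext
    rw [← hqa]
    exact Ideal.Quotient.eq_zero_iff_mem.2 h5
  have hsurj : Function.Surjective (mulR I (lin_hom w) k) := by
    intro b
    obtain ⟨p, hp, hpb⟩ := exists_of_mem_Rj I b.2
    obtain ⟨q, hq, hpq⟩ := hs p hp
    refine ⟨⟨Ideal.Quotient.mk I q, mk_mem_Rj I hq⟩, Subtype.ext ?_⟩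
    show ωb * Ideal.Quotient.mk I q = b.1
    rw [← hpb, hωb, ← map_mul]
    exact (Ideal.Quotient.eq.2 hpq).symm
  let E : Rj I k ≃ₗ[K] Rj I (k + 1) := LinearEquiv.ofBijective _ ⟨hinj, hsurj⟩
  have hE : ∀ a : Rj I k, ((E a : Rj I (k + 1)) : MvPolynomial (Fin n) K ⧸ I) = ωb * a.1 :=
    fun a => rfl
  have hEs : ∀ b : Rj I (k + 1), ωb * ((E.symm b : Rj I k) : MvPolynomial (Fin n) K ⧸ I) = b.1 := by
    intro b
    rw [← hE, E.apply_symm_apply]
  -- the operators
  let A : Fin n → (Rj I k →ₗ[K] Rj I k) := fun v => E.symm.toLinearMap ∘ₗ mulR I (isHomogeneous_X K v) k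
  have hA : ∀ (v : Fin n) (a : Rj I k),
      ωb * ((A v a : Rj I k) : MvPolynomial (Fin n) K ⧸ I) = Ideal.Quotient.mk I (X v) * a.1 := by
    intro v a
    exact hEs _
  -- the form
  let Λb : (MvPolynomial (Fin n) K ⧸ I) →ₗ[K] K :=
    (Submodule.restrictScalars K I).liftQ Λ (fun p hp => hΛ p hp)
  have hΛb : ∀ p, Λb (Ideal.Quotient.mk I p) = Λ p := fun p => rfl
  let F : Rj I k → Rj I k → K := fun a b => Λb (ωb * a.1 * b.1)
  have hFs : ∀ a b, F a b = F b a := by
    intro a b
    show Λb _ = Λb _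
    congr 1
    ring
  have hFA : ∀ v a b, F (A v a) b = F a (A v b) := by
    intro v a b
    show Λb (ωb * (A v a).1 * b.1) = Λb (ωb * a.1 * (A v b).1)
    have e1 : ωb * a.1 * (A v b).1 = (ωb * (A v b).1) * a.1 := by ring
    rw [hA, e1, hA]
    congr 1
    ring
  have hFadd : ∀ a b c, F a (b + c) = F a b + F a c := by
    intro a b c
    show Λb (ωb * a.1 * (b.1 + c.1)) = _
    rw [mul_add, map_add]
  have hFsub : ∀ a b c, F (a - b) c = F a c - F b c := by
    intro a b c
    show Λb (ωb * (a.1 - b.1) * c.1) = _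
    rw [mul_sub, sub_mul, map_sub]
  have hFsmul : ∀ (t : K) a b, F (t • a) b = t * F a b := by
    intro t a b
    show Λb (ωb * (t • a.1) * b.1) = _
    rw [mul_smul_comm, smul_mul_assoc, map_smul, smul_eq_mul]
  let W0 : Rj I k := ⟨Ideal.Quotient.mk I w0, mk_mem_Rj I hw0⟩
  have hW0 : W0 ≠ 0 := by
    intro h
    exact h2 (Ideal.Quotient.eq_zero_iff_mem.1 (congrArg Subtype.val h))
  have hFnd : ∀ a, (∀ b, F a b = 0) → a = 0 := by
    intro a ha
    obtain ⟨q, hq, hqa⟩ := exists_of_mem_Rj I a.2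
    have h4 := hnd q hq (fun p hp => by
      have h5 := ha ⟨Ideal.Quotient.mk I p, mk_mem_Rj I hp⟩
      have h7 : Ideal.Quotient.mk I (lin w * q * p) = ωb * a.1 * Ideal.Quotient.mk I p := by
        rw [RingHom.map_mul, RingHom.map_mul, hqa]
      rw [← hΛb, h7]
      exact h5)
    apply Subtype.ext
    rw [← hqa]
    exact Ideal.Quotient.eq_zero_iff_mem.2 h4
  -- kernel of ω² is spanned by W0
  have hker : ∀ a : Rj I k, ωb * (ωb * a.1) = 0 → ∃ c : K, a = c • W0 := by
    intro a ha
    obtain ⟨q, hq, hqa⟩ := exists_of_mem_Rj I a.2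
    rw [← hqa, hωb, ← map_mul, ← map_mul, Ideal.Quotient.eq_zero_iff_mem] at ha
    obtain ⟨c, hc⟩ := h3 q hq ha
    refine ⟨c, Subtype.ext ?_⟩
    rw [← hqa]
    show _ = c • Ideal.Quotient.mk I w0
    rw [Ideal.Quotient.eq.2 hc, C_mul']
    rfl
  -- commutators vanish
  have hcomm : ∀ u v a, A u (A v a) = A v (A u a) := by
    intro u v a
    have hC : ∀ a, ∃ c : K, A u (A v a) - A v (A u a) = c • W0 := by
      intro a
      apply hker
      show ωb * (ωb * ((A u (A v a)).1 - (A v (A u a)).1)) = 0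
      rw [mul_sub, hA, hA, mul_sub]
      have e1 : ωb * (Ideal.Quotient.mk I (X u) * (A v a).1) =
          Ideal.Quotient.mk I (X u) * (ωb * (A v a).1) := by ring
      have e2 : ωb * (Ideal.Quotient.mk I (X v) * (A u a).1) =
          Ideal.Quotient.mk I (X v) * (ωb * (A u a).1) := by ring
      rw [e1, e2, hA, hA]
      ring
    choose c hc using hC
    have hF0 : ∀ a, F (A u (A v a) - A v (A u a)) a = 0 := by
      intro a
      have e1 : F (A u (A v a)) a = F (A v a) (A u a) := hFA u _ _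
      have e2 : F (A v (A u a)) a = F (A u a) (A v a) := hFA v _ _
      rw [hFsub, e1, e2, hFs (A v a) (A u a), sub_self]
    have hF1 : ∀ a, c a * F W0 a = 0 := by
      intro a
      rw [← hFsmul, ← hc]
      exact hF0 a
    have hcadd : ∀ a b, c (a + b) = c a + c b := by
      intro a b
      have h5 : c (a + b) • W0 = (c a + c b) • W0 := by
        rw [add_smul, ← hc, ← hc, ← hc]
        simp only [map_add]
        abel
      exact smul_left_injective K hW0 h5
    have hzero : ∀ a, c a = 0 := by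
      intro a
      by_contra hca
      apply hW0
      apply hFnd
      intro b
      have h6 : F W0 a = 0 := (mul_eq_zero.1 (hF1 a)).resolve_left hca
      rcases mul_eq_zero.1 (hF1 b) with h7 | h7
      · have h8 := hF1 (a + b)
        rw [hcadd, h7, add_zero] at h8
        have h9 := (mul_eq_zero.1 h8).resolve_left hca
        rw [hFadd, h6, zero_add] at h9
        exact h9
      · exact h7
    have := hc a
    rw [hzero a, zero_smul] at this
    exact sub_eq_zero.1 this
  -- the map Π
  let hcR : MvPolynomial (Fin n) K →ₗ[K] Rj I (k + 1) :=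
    ((Ideal.Quotient.mkₐ K I).toLinearMap ∘ₗ homogeneousComponent (k + 1)).codRestrict _
      (fun p => mk_mem_Rj I (homogeneousComponent_isHomogeneous _ _))
  have hcR1 : ∀ p : MvPolynomial (Fin n) K, (hcR p).1 =
      Ideal.Quotient.mk I (homogeneousComponent (k + 1) p) := fun p => rfl
  have hcR2 : ∀ p : MvPolynomial (Fin n) K, ∀ hp : p.IsHomogeneous (k + 1),
      hcR p = ⟨Ideal.Quotient.mk I p, mk_mem_Rj I hp⟩ := by
    intro p hp
    apply Subtype.ext
    rw [hcR1, homogeneousComponent_of_mem hp, if_pos rfl]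
  let ψ : Fin n → (MvPolynomial (Fin n) K →ₗ[K] Rj I k) := fun i =>
    (A i) ∘ₗ E.symm.toLinearMap ∘ₗ hcR
  have hψ : ∀ i p, ψ i p = A i (E.symm (hcR p)) := fun i p => rfl
  have hψ0 : ∀ i p e, p.IsHomogeneous e → e ≠ k + 1 → ψ i p = 0 := by
    intro i p e hp he
    have h4 : hcR p = 0 := by
      apply Subtype.ext
      rw [hcR1, homogeneousComponent_of_mem hp, if_neg (fun h => he h.symm)]
      simp
    rw [hψ, h4, map_zero, map_zero]
  have hψI : ∀ i (p : MvPolynomial (Fin n) K), p ∈ Ideal.span G → p.IsHomogeneous (k + 1) →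
      ψ i p = 0 := by
    intro i p hp hph
    have h4 : hcR p = 0 := by
      rw [hcR2 p hph]
      apply Subtype.ext
      rw [← hIG] at hp
      exact Ideal.Quotient.eq_zero_iff_mem.2 hp
    rw [hψ, h4, map_zero, map_zero]
  -- value on X i * m
  have hval : ∀ (i : Fin n) (q : MvPolynomial (Fin n) K) (hq : q.IsHomogeneous k),
      E.symm (hcR (X i * q)) = A i ⟨Ideal.Quotient.mk I q, mk_mem_Rj I hq⟩ := by
    intro i q hq
    have h4 : (X i * q).IsHomogeneous (k + 1) := by
      have := (isHomogeneous_X K i).mul hq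
      rwa [add_comm] at this
    rw [hcR2 _ h4]
    rfl
  obtain ⟨Pi, hPiX, hPi0⟩ := exists_Pi k ψ hψ0 (by
    intro i j q hq
    rw [hψ, hψ, hval j q hq, hval i q hq]
    exact hcomm i j _)
  have hPiI := Pi_ideal k G hG ψ hψ0 hψI Pi hPiX hPi0
  have hlin : ∀ p : MvPolynomial (Fin n) K, Pi (lin w * p) = ∑ v, w v • ψ v p := by
    intro p
    unfold lin
    rw [Finset.sum_mul, map_sum]
    refine Finset.sum_congr rfl fun v _ => ?_
    rw [mul_assoc, C_mul', map_smul, hPiX]
  have hEW : E.symm (hcR (lin w * w0)) = W0 := by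
    have h4 : (lin w * w0).IsHomogeneous (k + 1) := by
      have := (lin_hom w).mul hw0
      rwa [add_comm] at this
    rw [hcR2 _ h4, LinearEquiv.symm_apply_eq]
    apply Subtype.ext
    rw [hE]
    rfl
  have hfin : Pi (lin w * (lin w * w0)) = W0 := by
    rw [hlin]
    apply E.injective
    apply Subtype.ext
    rw [hE, hE]
    have e1 : ((∑ v, w v • ψ v (lin w * w0) : Rj I k) : MvPolynomial (Fin n) K ⧸ I) =
        ∑ v, w v • ((A v W0 : Rj I k) : MvPolynomial (Fin n) K ⧸ I) := by
      rw [Submodule.coe_sum]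
      refine Finset.sum_congr rfl fun v _ => ?_
      rw [hψ, hEW]
      rfl
    rw [e1, Finset.mul_sum]
    have e2 : ∀ v, ωb * (w v • ((A v W0 : Rj I k) : MvPolynomial (Fin n) K ⧸ I)) =
        Ideal.Quotient.mk I (C (w v) * X v) * W0.1 := by
      intro v
      rw [mul_smul_comm, hA, C_mul', ← smul_mul_assoc]
      rfl
    rw [Finset.sum_congr rfl fun v _ => e2 v, ← Finset.sum_mul, ← map_sum]
    rfl
  rw [hPiI _ (by rw [← hIG]; exact h1)] at hfin
  exact hW0 hfin.symm

end core

end Pool.Agent.N360.MF
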