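import Pool.Agent.N360.MF.Pts

set_option autoImplicit false
set_option linter.unusedSectionVars false

namespace Pool.Agent.N360.MF

open MvPolynomial Finset Pool.Agent.W555.KS

variable {K : Type} [Field K] {n : ℕ} {ι : Type} [Fintype ι] [DecidableEq ι] {d : ℕ}
variable (L : Finset (Finset (Fin n))) (a : Fin d → Fin n → K) (y : ι → Fin n → K) (u : Fin d → K)

lemma squeeze (f D N : ℕ → ℕ) (d : ℕ) (h0 : f 0 = 0) (hs : ∀ i, f (i + 1) ≤ f i + D i)
    (hN : ∀ i, i ≤ d → D i ≤ N i) (ht : f (d + 1) = ∑ i ∈ range (d + 1), N i) :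
    (∀ i, i ≤ d + 1 → f i = ∑ j ∈ range i, N j) ∧ ∀ i, i ≤ d → D i = N i := by
  have h1 : ∀ i, i ≤ d + 1 → f i ≤ ∑ j ∈ range i, N j := by
    intro i
    induction i with
    | zero => intro _; rw [h0]; exact Nat.zero_le _
    | succ i ih =>
      intro hi
      have e1 := ih (by omega)
      have e2 := hs i
      have e3 := hN i (by omega)
      rw [sum_range_succ]
      omega
  have h2 : ∀ j i, i + j = d + 1 → ∑ l ∈ range i, N l ≤ f i := by
    intro j
    induction j with
    | zero =>
      intro i hi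
      obtain rfl : i = d + 1 := by omega
      exact ht.ge
    | succ j ih =>
      intro i hi
      have e1 := ih (i + 1) (by omega)
      have e2 := hs i
      have e3 := hN i (by omega)
      rw [sum_range_succ] at e1
      omega
  have h3 : ∀ i, i ≤ d + 1 → f i = ∑ j ∈ range i, N j := fun i hi =>
    le_antisymm (h1 i hi) (h2 (d + 1 - i) i (by omega))
  refine ⟨h3, fun i hi => ?_⟩
  have e1 := h3 i (by omega)
  have e2 := h3 (i + 1) (by omega)
  have e3 := hs i
  have e4 := hN i hi
  rw [sum_range_succ] at e2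
  omega

lemma VV_top (h3 : ∀ F, ∃ σ : Finset (Fin n), σ.card ≤ d ∧ ∀ F', ∏ v ∈ σ, y F' v ≠ 0 ↔ F' = F) :
    VV y (d + 1) = ⊤ := by
  rw [eq_top_iff]
  have key : ∀ F, (Pi.single F (1 : K) : ι → K) ∈ VV y (d + 1) := by
    intro F
    obtain ⟨σ, hσ, h⟩ := h3 F
    have h4 : ev y (∏ v ∈ σ, X v) ∈ VV y (d + 1) := ev_mem_VV y (Nat.lt_succ_of_le hσ) (prod_hom σ)
    have h5 : (Pi.single F (1 : K) : ι → K) = (∏ v ∈ σ, y F v)⁻¹ • ev y (∏ v ∈ σ, X v) := by
      funext F'
      rw [Pi.smul_apply, ev_prod, smul_eq_mul]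
      by_cases hF : F' = F
      · subst hF
        rw [Pi.single_eq_same, inv_mul_cancel₀ ((h F').2 rfl)]
      · rw [Pi.single_eq_of_ne hF]
        have : ∏ v ∈ σ, y F' v = 0 := by
          by_contra h6
          exact hF ((h F').1 h6)
        rw [this, mul_zero]
    rw [h5]
    exact Submodule.smul_mem _ _ h4
  intro f _
  have : f = ∑ F, f F • (Pi.single F (1 : K) : ι → K) := by
    funext F'
    rw [Finset.sum_apply, sum_eq_single F']
    · rw [Pi.smul_apply, Pi.single_eq_same, smul_eq_mul, mul_one]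
    · intro b _ hb
      rw [Pi.smul_apply, Pi.single_eq_of_ne (Ne.symm hb), smul_zero]
    · intro h
      exact absurd (mem_univ _) h
  rw [this]
  exact Submodule.sum_mem _ fun F _ => Submodule.smul_mem _ _ (key F)

/-- adjacent facets -/
def Adj (y : ι → Fin n → K) (d : ℕ) (F F' : ι) : Prop :=
  F ≠ F' ∧ ∃ σ : Finset (Fin n), σ.card < d ∧ ∀ F'', ∏ v ∈ σ, y F'' v ≠ 0 ↔ F'' = F ∨ F'' = F'

theorem duality (k : ℕ) (hd : d = 2 * k + 1)
    (h1 : ∀ F, ∀ σ, σ ∉ L → ∏ v ∈ σ, y F v = 0)
    (h2 : ∀ F i, ∑ v, a i v * y F v = u i)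
    (h3 : ∀ F, ∃ σ : Finset (Fin n), σ.card ≤ d ∧ ∀ F', ∏ v ∈ σ, y F' v ≠ 0 ↔ F' = F)
    (h4 : ∀ S : ι → Prop, (∀ F F', Adj y d F F' → S F → S F') → ∀ F F', S F → S F')
    (N : ℕ → ℕ) (hN : ∀ i, i ≤ d → dimQ (Ideal.span (gens L a)) i ≤ N i)
    (hNs : ∑ i ∈ range (d + 1), N i = Fintype.card ι) (hN1 : N d = 1)
    (hNh : 2 * ∑ i ∈ range (k + 1), N i = Fintype.card ι) :
    (∀ i, i ≤ d → dimQ (Ideal.span (gens L a)) i = N i) ∧
    ∃ Λ : MvPolynomial (Fin n) K →ₗ[K] K, (∀ p ∈ Ideal.span (gens L a), Λ p = 0) ∧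
      ∀ q : MvPolynomial (Fin n) K, q.IsHomogeneous (k + 1) →
        (∀ p : MvPolynomial (Fin n) K, p.IsHomogeneous k → Λ (q * p) = 0) →
        q ∈ Ideal.span (gens L a) := by
  set I := Ideal.span (gens L a) with hI
  have hst := V_step L a y u h1 h2
  obtain ⟨hf, hD⟩ := squeeze (fun i => Module.finrank K (VV y i)) (fun i => dimQ I i) N d
    (by show Module.finrank K (VV y 0) = 0
        rw [VV_zero, finrank_bot]) (fun i => (hst i).1) hN
    (by show Module.finrank K (VV y (d + 1)) = _
        rw [VV_top y h3, finrank_top, Module.finrank_fintype_fun_eq_card, hNs])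
  refine ⟨hD, ?_⟩
  -- injectivity
  have hinj : ∀ i, i ≤ d → ∀ p : MvPolynomial (Fin n) K, p.IsHomogeneous i →
      ev y p ∈ VV y i → p ∈ I := by
    intro i hi
    refine (hst i).2 ?_
    have e1 := hf i (by omega)
    have e2 := hf (i + 1) (by omega)
    have e3 := hD i hi
    rw [sum_range_succ] at e2
    rw [e1, e2, ← e3]
  -- the functional
  have hlt : VV y d < ⊤ := by
    refine lt_of_le_of_ne le_top ?_
    intro h
    have e1 := hf d (by omega)
    have e2 := hf (d + 1) (by omega)
    rw [sum_range_succ] at e2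
    rw [VV_top y h3, ← h] at e2
    omega
  obtain ⟨lam, hlam, hlam2⟩ := Submodule.exists_le_ker_of_lt_top _ hlt
  have hl0 : ∀ f ∈ VV y d, lam f = 0 := fun f hf => LinearMap.mem_ker.1 (hlam2 hf)
  have hexp : ∀ f : ι → K, lam f = ∑ F, f F * lam (Pi.single F 1) := by
    intro f
    have : f = ∑ F, f F • (Pi.single F (1 : K) : ι → K) := by
      funext F'
      rw [Finset.sum_apply, sum_eq_single F']
      · rw [Pi.smul_apply, Pi.single_eq_same, smul_eq_mul, mul_one]
      · intro b _ hb
        rw [Pi.smul_apply, Pi.single_eq_of_ne (Ne.symm hb), smul_zero]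
      · intro h
        exact absurd (mem_univ _) h
    conv_lhs => rw [this]
    rw [map_sum]
    exact sum_congr rfl fun F _ => by rw [map_smul, smul_eq_mul]
  have hadj : ∀ F F', Adj y d F F' → lam (Pi.single F 1) = 0 → lam (Pi.single F' 1) = 0 := by
    rintro F F' ⟨hne, σ, hσ, h⟩ h0
    have e1 := hl0 _ (ev_mem_VV y hσ (prod_hom σ))
    rw [hexp] at e1
    have e2 : ∑ F'', ev y (∏ v ∈ σ, X v) F'' * lam (Pi.single F'' 1) =
        ev y (∏ v ∈ σ, X v) F' * lam (Pi.single F' 1) := by
      refine sum_eq_single F' ?_ (fun h => absurd (mem_univ _) h)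
      intro F'' _ hF''
      by_cases hF : F'' = F
      · rw [hF, h0, mul_zero]
      · have : ∏ v ∈ σ, y F'' v = 0 := by
          by_contra h6
          rcases (h F'').1 h6 with h7 | h7
          · exact hF h7
          · exact hF'' h7
        rw [ev_prod, this, zero_mul]
    rw [e2, ev_prod] at e1
    exact (mul_eq_zero.1 e1).resolve_left ((h F').2 (Or.inr rfl))
  have hlne : ∀ F, lam (Pi.single F 1) ≠ 0 := by
    intro F hF
    apply hlam
    ext F'
    exact h4 (fun F => lam (Pi.single F 1) = 0) hadj F F' hF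
  -- the form
  let B : LinearMap.BilinForm K (ι → K) := LinearMap.mk₂ K (fun f g => lam (f * g))
    (fun f f' g => by rw [add_mul, map_add]) (fun c f g => by rw [smul_mul_assoc, map_smul])
    (fun f g g' => by rw [mul_add, map_add]) (fun c f g => by rw [mul_smul_comm, map_smul])
  have hB : ∀ f g, B f g = lam (f * g) := fun f g => rfl
  have hBnd : B.Nondegenerate := by
    have key : ∀ f, (∀ g, B f g = 0) → f = 0 := by
      intro f hf
      funext F
      have h5 := hf (Pi.single F 1)
      rw [hB] at h5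
      have h6 : f * Pi.single F (1 : K) = f F • (Pi.single F (1 : K) : ι → K) := by
        funext F'
        rw [Pi.mul_apply, Pi.smul_apply, smul_eq_mul]
        by_cases h : F' = F
        · subst h
          rfl
        · rw [Pi.single_eq_of_ne h, mul_zero, mul_zero]
      rw [h6, map_smul, smul_eq_mul] at h5
      exact (mul_eq_zero.1 h5).resolve_right (hlne F)
    refine ⟨key, fun f hf => key f fun g => ?_⟩
    have h5 := hf g
    rw [hB] at h5 ⊢
    rwa [mul_comm]
  have hBr : B.IsRefl := by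
    intro f g h
    rw [hB] at h ⊢
    rwa [mul_comm]
  have hprod : ∀ (q p : MvPolynomial (Fin n) K) (e e' : ℕ), q.IsHomogeneous e → p.IsHomogeneous e' →
      e + e' < d → lam (ev y q * ev y p) = 0 := by
    intro q p e e' hq hp h
    rw [← ev_mul]
    exact hl0 _ (ev_mem_VV y h (hq.mul hp))
  have hself : VV y (k + 1) ≤ B.orthogonal (VV y (k + 1)) := by
    intro f hf g hg
    show B g f = 0
    refine Submodule.span_induction (p := fun f _ => B g f = 0) ?_ ?_ ?_ ?_ hf
    · rintro _ ⟨e, he, p, hp, rfl⟩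
      refine Submodule.span_induction (p := fun g _ => B g (ev y p) = 0) ?_ ?_ ?_ ?_ hg
      · rintro _ ⟨e', he', p', hp', rfl⟩
        exact hprod p' p e' e hp' hp (by omega)
      · rw [map_zero, LinearMap.zero_apply]
      · intro f g _ _ h h'
        rw [map_add, LinearMap.add_apply, h, h', add_zero]
      · intro c f _ h
        rw [map_smul, LinearMap.smul_apply, h, smul_zero]
    · exact map_zero _
    · intro f g _ _ h h'
      rw [map_add, h, h', add_zero]
    · intro c f _ h
      rw [map_smul, h, smul_zero]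
  have horth : B.orthogonal (VV y (k + 1)) = VV y (k + 1) := by
    refine (Submodule.eq_of_le_of_finrank_eq hself ?_).symm
    rw [LinearMap.BilinForm.finrank_orthogonal hBnd]
    have e1 := hf (k + 1) (by omega)
    rw [e1, Module.finrank_fintype_fun_eq_card]
    omega
  refine ⟨lam ∘ₗ ev y ∘ₗ homogeneousComponent d, ?_, ?_⟩
  · intro p hp
    exact hl0 _ (ev_hc_mem L a y u h1 h2 d p hp)
  · intro q hq h5
    refine hinj (k + 1) (by omega) q hq ?_
    rw [← horth]
    intro f hf
    show B f (ev y q) = 0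
    refine Submodule.span_induction (p := fun f _ => B f (ev y q) = 0) ?_ ?_ ?_ ?_ hf
    · rintro _ ⟨e, he, p, hp, rfl⟩
      rw [hB]
      rcases Nat.lt_succ_iff_lt_or_eq.1 he with h | h
      · exact hprod p q e (k + 1) hp hq (by omega)
      · subst h
        have h6 := h5 p hp
        have h7 : (q * p).IsHomogeneous d := by
          have := hq.mul hp
          rwa [show e + 1 + e = d by omega] at this
        have h8 : lam (ev y (homogeneousComponent d (q * p))) = 0 := h6
        rw [homogeneousComponent_of_mem h7, if_pos rfl, ev_mul, mul_comm] at h8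
        exact h8
    · rw [map_zero, LinearMap.zero_apply]
    · intro f g _ _ h h'
      rw [map_add, LinearMap.add_apply, h, h', add_zero]
    · intro c f _ h
      rw [map_smul, LinearMap.smul_apply, h, smul_zero]

end Pool.Agent.N360.MF
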