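import Pool.Agent.N360.MF.Top6

set_option autoImplicit false

namespace Pool.Agent.N360.MF

open Finset Pool.Agent.W555.KS Pool.Agent.W289.KS

/-- the hypotheses hold for `k`-neighborly simplicial `2k`-spheres -/
theorem good_of {n k : ℕ} (hk : 1 ≤ k) (hn : 2 * k + 1 < n) {L : Finset (Finset (Fin n))}
    (hL : IsCx L) (Φ : rea L ≃ₜ Metric.sphere (0 : Eu (2 * k + 1)) 1)
    (hnb : ∀ σ : Finset (Fin n), σ.card ≤ k → σ ∈ L) : Good k L := by
  classical
  obtain ⟨H⟩ := exists_coneHomeo hL.1 Φ
  have hne : L ≠ {∅} := by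
    intro h
    have h1 := hnb {⟨0, by omega⟩} (by rw [card_singleton]; exact hk)
    rw [h, mem_singleton] at h1
    exact singleton_ne_empty _ h1
  refine ⟨hL, card_le_of hL H (by omega), euler_of hL H (by omega) hne, ?_, ?_, hnb, ?_⟩
  · intro ρ hρ hc
    exact ridge_of hL H hρ (card_pos.1 (by omega)) (by omega)
  · intro S hS F hF hFc F' hF' hFc'
    refine conn_star hL H (by omega) (2 * k + 1) ∅ (by rw [card_empty]; omega) S ?_ F hF
      (empty_subset _) hFc F' hF' (empty_subset _) hFc'
    intro ρ hρ _ hρc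
    exact hS ρ hρ (by omega)
  · refine embS n (2 * k + 1) L hL
      ⟨fun x => if hx : x ∈ rea L then ((Φ ⟨x, hx⟩ : Metric.sphere (0 : Eu (2 * k + 1)) 1) : Eu (2 * k + 1)) else 0, ?_, ?_, ?_⟩
    · change ContinuousOn _ (rea L)
      rw [continuousOn_iff_continuous_domRestrict]
      have h1 : Continuous (fun x : rea L => (Φ x : Eu (2 * k + 1))) :=
        continuous_subtype_val.comp Φ.continuous
      refine h1.congr ?_
      intro x
      show _ = dite _ _ _
      rw [dif_pos x.2]
    · change Set.InjOn _ (rea L)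
      intro x hx y hy hxy
      simp only at hxy
      rw [dif_pos hx, dif_pos hy] at hxy
      exact congrArg Subtype.val (Φ.injective (Subtype.ext hxy))
    · intro x h1 h2 h3
      have hx : x ∈ rea L := ⟨h1, h2, h3⟩
      simp only
      rw [dif_pos hx]
      exact mem_sphere_zero_iff_norm.1 (Φ ⟨x, hx⟩).2

end Pool.Agent.N360.MF
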