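import Pool.Agent.N360.MF.Alg

set_option autoImplicit false
set_option linter.unusedSectionVars false

namespace Pool.Agent.N360.MF

open MvPolynomial Finset Pool.Agent.W555.KS

section gen
variable {K : Type} [Field K] {n d : ℕ}

/-- all sets whose `(k+1)`-subsets are faces -/
def LJ (k : ℕ) (L : Finset (Finset (Fin n))) : Finset (Finset (Fin n)) :=
  univ.filter (fun σ => ∀ τ, τ ⊆ σ → τ.card = k + 1 → τ ∈ L)

/-- missing faces with `j` elements -/
def miss (L : Finset (Finset (Fin n))) (j : ℕ) : Finset (Finset (Fin n)) :=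
  univ.filter (fun σ => σ.card = j ∧ σ ∉ L ∧ ∀ τ, τ ⊂ σ → τ ∈ L)

lemma mem_LJ {k : ℕ} {L : Finset (Finset (Fin n))} {σ : Finset (Fin n)} :
    σ ∈ LJ k L ↔ ∀ τ, τ ⊆ σ → τ.card = k + 1 → τ ∈ L := by
  unfold LJ
  rw [mem_filter]
  exact ⟨fun h => h.2, fun h => ⟨mem_univ _, h⟩⟩

lemma le_LJ {k : ℕ} {L : Finset (Finset (Fin n))} (hL : IsCx L) : L ⊆ LJ k L :=
  fun σ hσ => mem_LJ.2 fun τ hτ _ => hL.2 σ hσ τ hτ

lemma cx_LJ {k : ℕ} {L : Finset (Finset (Fin n))} : IsCx (LJ k L) := by
  refine ⟨mem_LJ.2 ?_, ?_⟩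
  · intro τ hτ hc
    rw [subset_empty.1 hτ, card_empty] at hc
    omega
  · intro σ hσ τ hτ
    rw [mem_LJ] at hσ ⊢
    exact fun ρ hρ hc => hσ ρ (hρ.trans hτ) hc

lemma LJ_low {k : ℕ} {L : Finset (Finset (Fin n))} (hnb : ∀ σ : Finset (Fin n), σ.card ≤ k → σ ∈ L)
    {σ : Finset (Fin n)} (hc : σ.card ≤ k + 1) (h : σ ∈ LJ k L) : σ ∈ L := by
  rcases Nat.lt_or_ge k σ.card with h1 | h1
  · exact mem_LJ.1 h σ (Subset.refl _) (by omega)
  · exact hnb σ h1

/-- new faces of size `k + 2` are missing faces -/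
lemma LJ_next {k : ℕ} {L : Finset (Finset (Fin n))} (hL : IsCx L)
    (hnb : ∀ σ : Finset (Fin n), σ.card ≤ k → σ ∈ L)
    {σ : Finset (Fin n)} (hc : σ.card = k + 2) : σ ∈ LJ k L ↔ σ ∈ L ∨ σ ∈ miss L (k + 2) := by
  constructor
  · intro h
    by_cases h1 : σ ∈ L
    · exact Or.inl h1
    · right
      refine mem_filter.2 ⟨mem_univ _, hc, h1, ?_⟩
      intro τ hτ
      have h2 := card_lt_card hτ
      exact LJ_low hnb (by omega) (cx_LJ.2 σ h τ hτ.1)
  · rintro (h | h)
    · exact le_LJ hL h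
    · rw [mem_LJ]
      intro τ hτ hτc
      refine (mem_filter.1 h).2.2.2 τ (ssubset_of_subset_of_ne hτ ?_)
      rintro rfl
      omega

lemma nf_LJ {k : ℕ} {L : Finset (Finset (Fin n))} (hL : IsCx L)
    (hnb : ∀ σ : Finset (Fin n), σ.card ≤ k → σ ∈ L) :
    nf (LJ k L) (k + 2) = nf L (k + 2) + (miss L (k + 2)).card := by
  unfold nf
  rw [← card_union_of_disjoint]
  · congr 1
    ext σ
    rw [mem_filter, mem_union, mem_filter]
    constructor
    · rintro ⟨h1, h2⟩
      rcases (LJ_next hL hnb h2).1 h1 with h3 | h3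
      · exact Or.inl ⟨h3, h2⟩
      · exact Or.inr h3
    · rintro (⟨h1, h2⟩ | h1)
      · exact ⟨le_LJ hL h1, h2⟩
      · have h2 := (mem_filter.1 h1).2.1
        exact ⟨(LJ_next hL hnb h2).2 (Or.inr h1), h2⟩
  · rw [disjoint_left]
    intro σ h1 h2
    exact (mem_filter.1 h2).2.2.1 (mem_filter.1 h1).1

variable (a : Fin d → Fin n → K)

lemma gens_LJ_le (k : ℕ) {L : Finset (Finset (Fin n))} (hL : IsCx L) :
    Ideal.span (gens (LJ k L) a) ≤ Ideal.span (gens L a) := by
  refine Ideal.span_mono ?_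
  rintro g (⟨σ, hσ, rfl⟩ | h)
  · exact Or.inl ⟨σ, fun h => hσ (le_LJ hL h), rfl⟩
  · exact Or.inr h

/-- the generators of degree at most `k + 1` -/
def gens' (k : ℕ) (L : Finset (Finset (Fin n))) : Set (MvPolynomial (Fin n) K) :=
  {p | ∃ σ : Finset (Fin n), σ.card = k + 1 ∧ σ ∉ L ∧ p = ∏ v ∈ σ, X v} ∪
    Set.range (fun i => lin (a i))

lemma span_gens' (k : ℕ) (L : Finset (Finset (Fin n))) :
    Ideal.span (gens (LJ k L) a) = Ideal.span (gens' a k L) := by
  apply le_antisymm
  · rw [Ideal.span_le]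
    rintro g (⟨σ, hσ, rfl⟩ | h)
    · rw [mem_LJ] at hσ
      push Not at hσ
      obtain ⟨τ, h1, h2, h3⟩ := hσ
      show ∏ v ∈ σ, X v ∈ Ideal.span (gens' a k L)
      rw [← prod_sdiff h1]
      exact Ideal.mul_mem_left _ _ (Ideal.subset_span (Or.inl ⟨τ, h2, h3, rfl⟩))
    · exact Ideal.subset_span (Or.inr h)
  · refine Ideal.span_mono ?_
    rintro g (⟨σ, hc, hσ, rfl⟩ | h)
    · exact Or.inl ⟨σ, fun h => hσ (mem_LJ.1 h σ (Subset.refl _) hc), rfl⟩
    · exact Or.inr h

lemma gens'_hom (k : ℕ) (L : Finset (Finset (Fin n))) :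
    ∀ g ∈ gens' a k L, ∃ e, e ≤ k + 1 ∧ g.IsHomogeneous e := by
  rintro g (⟨σ, hc, _, rfl⟩ | ⟨i, rfl⟩)
  · exact ⟨σ.card, hc.le, prod_hom σ⟩
  · exact ⟨1, by omega, lin_hom _⟩

/-- the two ideals agree up to degree `k + 1` -/
lemma agree (k : ℕ) {L : Finset (Finset (Fin n))}
    (hnb : ∀ σ : Finset (Fin n), σ.card ≤ k → σ ∈ L) (e : ℕ) (he : e ≤ k + 1)
    (p : MvPolynomial (Fin n) K) (hp : p.IsHomogeneous e) (h : p ∈ Ideal.span (gens L a)) :
    p ∈ Ideal.span (gens (LJ k L) a) := by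
  have key := span_le_of_monomial
    (((Ideal.span (gens (LJ k L) a)).restrictScalars K).comap (homogeneousComponent e)) (gens L a)
    ?_ p h
  · have h2 : homogeneousComponent e p ∈ Ideal.span (gens (LJ k L) a) := key
    rwa [homogeneousComponent_of_mem hp, if_pos rfl] at h2
  · intro g hg m
    show homogeneousComponent e (monomial m 1 * g) ∈ Ideal.span (gens (LJ k L) a)
    rcases hg with ⟨σ, hσ, rfl⟩ | ⟨i, rfl⟩
    · rw [homogeneousComponent_of_mem ((isHomogeneous_monomial (1 : K) rfl).mul (prod_hom σ))]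
      split_ifs with h3
      · exact Ideal.mul_mem_left _ _ (Ideal.subset_span (Or.inl ⟨σ, fun h4 =>
          hσ (LJ_low hnb (by omega) h4), rfl⟩))
      · exact Ideal.zero_mem _
    · rw [homogeneousComponent_of_mem ((isHomogeneous_monomial (1 : K) rfl).mul (lin_hom (a i)))]
      split_ifs with h3
      · exact Ideal.mul_mem_left _ _ (Ideal.subset_span (Or.inr ⟨i, rfl⟩))
      · exact Ideal.zero_mem _

lemma Rj_range (I : Ideal (MvPolynomial (Fin n) K)) (i : ℕ) : Rj I i =
    LinearMap.range ((Ideal.Quotient.mkₐ K I).toLinearMap.domRestrict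
      (homogeneousSubmodule (Fin n) K i)) := (LinearMap.range_domRestrict _ _).symm

lemma dimQ_add (I : Ideal (MvPolynomial (Fin n) K)) (i : ℕ) :
    dimQ I i + Module.finrank K ((I.restrictScalars K).comap
      (homogeneousSubmodule (Fin n) K i).subtype) =
      Module.finrank K (homogeneousSubmodule (Fin n) K i) := by
  have : FiniteDimensional K (homogeneousSubmodule (Fin n) K i) :=
    Module.Finite.iff_fg.2 (homogeneousSubmodule_fg (Fin n) K i)
  have hker : (I.restrictScalars K).comap (homogeneousSubmodule (Fin n) K i).subtype = LinearMap.ker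
      ((Ideal.Quotient.mkₐ K I).toLinearMap.domRestrict (homogeneousSubmodule (Fin n) K i)) := by
    ext x
    rw [LinearMap.mem_ker]
    exact (Ideal.Quotient.eq_zero_iff_mem (I := I) (a := x.1)).symm
  rw [hker, dimQ_eq, Rj_range]
  exact LinearMap.finrank_range_add_finrank_ker
    ((Ideal.Quotient.mkₐ K I).toLinearMap.domRestrict (homogeneousSubmodule (Fin n) K i))

lemma dimQ_congr (I J : Ideal (MvPolynomial (Fin n) K)) (i : ℕ)
    (h : ∀ p : MvPolynomial (Fin n) K, p.IsHomogeneous i → (p ∈ I ↔ p ∈ J)) : dimQ I i = dimQ J i := by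
  have h1 := dimQ_add I i
  have h2 := dimQ_add J i
  have h3 : (I.restrictScalars K).comap (homogeneousSubmodule (Fin n) K i).subtype =
      (J.restrictScalars K).comap (homogeneousSubmodule (Fin n) K i).subtype := by
    ext x
    exact h x.1 x.2
  rw [h3] at h1
  omega

/-- degree `k + 2`: the ideals differ by the missing faces -/
lemma differ (k : ℕ) {L : Finset (Finset (Fin n))} (hL : IsCx L)
    (hnb : ∀ σ : Finset (Fin n), σ.card ≤ k → σ ∈ L)
    (p : MvPolynomial (Fin n) K) (hp : p.IsHomogeneous (k + 2)) (h : p ∈ Ideal.span (gens L a)) :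
    p ∈ (Ideal.span (gens (LJ k L) a)).restrictScalars K ⊔
      Submodule.span K (Set.range (fun σ : {σ // σ ∈ miss L (k + 2)} =>
        (∏ v ∈ σ.1, X v : MvPolynomial (Fin n) K))) := by
  set N := (Ideal.span (gens (LJ k L) a)).restrictScalars K ⊔
      Submodule.span K (Set.range (fun σ : {σ // σ ∈ miss L (k + 2)} =>
        (∏ v ∈ σ.1, X v : MvPolynomial (Fin n) K))) with hN
  have key := span_le_of_monomial (N.comap (homogeneousComponent (k + 2))) (gens L a) ?_ p h
  · have h2 : homogeneousComponent (k + 2) p ∈ N := key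
    rwa [homogeneousComponent_of_mem hp, if_pos rfl] at h2
  · intro g hg m
    show homogeneousComponent (k + 2) (monomial m 1 * g) ∈ N
    rcases hg with ⟨σ, hσ, rfl⟩ | ⟨i, rfl⟩
    · rw [homogeneousComponent_of_mem ((isHomogeneous_monomial (1 : K) rfl).mul (prod_hom σ))]
      split_ifs with h3
      · by_cases h4 : σ ∈ LJ k L
        · have hc : σ.card = k + 2 := by
            by_contra h5
            exact hσ (LJ_low hnb (by omega) h4)
          have hm : m = 0 := by
            have : m.degree = 0 := by omega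
            rwa [Finsupp.degree_eq_zero_iff] at this
          subst hm
          have h5 : σ ∈ miss L (k + 2) := ((LJ_next hL hnb hc).1 h4).resolve_left hσ
          refine Submodule.mem_sup_right (Submodule.subset_span ⟨⟨σ, h5⟩, ?_⟩)
          rw [show (monomial (0 : Fin n →₀ ℕ) (1 : K)) = 1 from rfl, one_mul]
        · exact Submodule.mem_sup_left (Ideal.mul_mem_left _ _
            (Ideal.subset_span (Or.inl ⟨σ, h4, rfl⟩)))
      · exact N.zero_mem
    · rw [homogeneousComponent_of_mem ((isHomogeneous_monomial (1 : K) rfl).mul (lin_hom (a i)))]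
      split_ifs with h3
      · exact Submodule.mem_sup_left (Ideal.mul_mem_left _ _ (Ideal.subset_span (Or.inr ⟨i, rfl⟩)))
      · exact N.zero_mem

lemma upper (k : ℕ) {L : Finset (Finset (Fin n))} (hL : IsCx L)
    (hnb : ∀ σ : Finset (Fin n), σ.card ≤ k → σ ∈ L) :
    dimQ (Ideal.span (gens (LJ k L) a)) (k + 2) ≤
      dimQ (Ideal.span (gens L a)) (k + 2) + (miss L (k + 2)).card := by
  set I := Ideal.span (gens (LJ k L) a) with hI
  set J := Ideal.span (gens L a) with hJ
  have hIJ : I ≤ J := gens_LJ_le a k hL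
  have h1 := finite_Rj I (k + 2)
  have h2 := finite_Rj J (k + 2)
  let f0 : (MvPolynomial (Fin n) K ⧸ I) →ₗ[K] (MvPolynomial (Fin n) K ⧸ J) :=
    (Ideal.Quotient.factorₐ K hIJ).toLinearMap
  have hf0 : ∀ p, f0 (Ideal.Quotient.mk I p) = Ideal.Quotient.mk J p := fun p => rfl
  let f : Rj I (k + 2) →ₗ[K] (MvPolynomial (Fin n) K ⧸ J) := f0.domRestrict _
  have hr : LinearMap.range f ≤ Rj J (k + 2) := by
    rintro _ ⟨x, rfl⟩
    obtain ⟨p, hp, hpx⟩ := exists_of_mem_Rj I x.2
    show f0 x.1 ∈ _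
    rw [← hpx, hf0]
    exact mk_mem_Rj J hp
  let g : {σ // σ ∈ miss L (k + 2)} → Rj I (k + 2) := fun σ =>
    ⟨Ideal.Quotient.mk I (∏ v ∈ σ.1, X v), mk_mem_Rj I (by
      have := prod_hom (K := K) σ.1
      rwa [(mem_filter.1 σ.2).2.1] at this)⟩
  have hk : LinearMap.ker f ≤ Submodule.span K (Set.range g) := by
    intro x hx
    obtain ⟨p, hp, hpx⟩ := exists_of_mem_Rj I x.2
    have h3 : f0 x.1 = 0 := hx
    rw [← hpx, hf0, Ideal.Quotient.eq_zero_iff_mem] at h3
    have h4 := differ a k hL hnb p hp h3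
    obtain ⟨q, hq, r, hr, hqr⟩ := Submodule.mem_sup.1 h4
    have h5 : x.1 = Ideal.Quotient.mk I r := by
      rw [← hpx, ← hqr, map_add, Ideal.Quotient.eq_zero_iff_mem.2 hq, zero_add]
    have h6 : ∀ r ∈ Submodule.span K (Set.range (fun σ : {σ // σ ∈ miss L (k + 2)} =>
        (∏ v ∈ σ.1, X v : MvPolynomial (Fin n) K))), ∃ z ∈ Submodule.span K (Set.range g),
        z.1 = Ideal.Quotient.mk I r := by
      intro r hr
      refine Submodule.span_induction ?_ ?_ ?_ ?_ hr
      · rintro _ ⟨σ, rfl⟩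
        exact ⟨g σ, Submodule.subset_span ⟨σ, rfl⟩, rfl⟩
      · exact ⟨0, Submodule.zero_mem _, by simp⟩
      · rintro r r' _ _ ⟨z, hz, h⟩ ⟨z', hz', h'⟩
        exact ⟨z + z', Submodule.add_mem _ hz hz', by
          rw [map_add, ← h, ← h']
          rfl⟩
      · rintro c r _ ⟨z, hz, h⟩
        refine ⟨c • z, Submodule.smul_mem _ c hz, ?_⟩
        show c • z.1 = _
        rw [h]
        rfl
    obtain ⟨z, hz, hz2⟩ := h6 r hr
    have : x = z := Subtype.ext (h5.trans hz2.symm)
    rw [this]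
    exact hz
  have h3 := LinearMap.finrank_range_add_finrank_ker f
  have h4 := Submodule.finrank_mono hr
  have h5 := Submodule.finrank_mono hk
  have h6 : Module.finrank K (Submodule.span K (Set.range g)) ≤ (miss L (k + 2)).card := by
    have := finrank_range_le_card (R := K) g
    rw [Fintype.card_coe] at this
    exact this
  rw [dimQ_eq, dimQ_eq]
  omega

lemma hc_lin_mul (w : Fin n → K) (k : ℕ) (q : MvPolynomial (Fin n) K) :
    homogeneousComponent (k + 1) (lin w * q) = lin w * homogeneousComponent k q := by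
  conv_lhs => rw [← sum_homogeneousComponent q]
  rw [mul_sum, map_sum]
  by_cases hq : k ∈ range (q.totalDegree + 1)
  · rw [sum_eq_single k]
    · have h6 : (lin w * homogeneousComponent k q).IsHomogeneous (k + 1) := by
        have := (lin_hom w).mul (homogeneousComponent_isHomogeneous k q)
        rwa [add_comm] at this
      rw [homogeneousComponent_of_mem h6, if_pos rfl]
    · intro b _ hb
      have h6 := (lin_hom w).mul (homogeneousComponent_isHomogeneous b q)
      rw [homogeneousComponent_of_mem h6, if_neg (by omega)]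
    · intro h
      exact absurd hq h
  · rw [sum_eq_zero, homogeneousComponent_eq_zero _ _ (by
      rw [mem_range] at hq
      omega), mul_zero]
    intro b hb
    have h6 := (lin_hom w).mul (homogeneousComponent_isHomogeneous b q)
    rw [homogeneousComponent_of_mem h6, if_neg]
    intro h7
    have : b = k := by omega
    subst this
    exact hq hb

lemma hom_succ {p q : MvPolynomial (Fin n) K} {k : ℕ} (hp : p.IsHomogeneous 1)
    (hq : q.IsHomogeneous k) : (p * q).IsHomogeneous (k + 1) := by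
  have := hp.mul hq
  rwa [add_comm] at this

/-- `core` in terms of dimensions -/
theorem no_codim_one (k : ℕ) (I : Ideal (MvPolynomial (Fin n) K))
    (G : Set (MvPolynomial (Fin n) K)) (hIG : I = Ideal.span G)
    (hG : ∀ g ∈ G, ∃ e, e ≤ k + 1 ∧ g.IsHomogeneous e)
    (w : Fin n → K)
    (hs : ∀ p : MvPolynomial (Fin n) K, p.IsHomogeneous (k + 1) →
      ∃ q : MvPolynomial (Fin n) K, q.IsHomogeneous k ∧ p - lin w * q ∈ I)
    (hd1 : dimQ I (k + 1) = dimQ I k)
    (Λ : MvPolynomial (Fin n) K →ₗ[K] K) (hΛ : ∀ p ∈ I, Λ p = 0)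
    (hnd : ∀ q : MvPolynomial (Fin n) K, q.IsHomogeneous (k + 1) →
      (∀ p : MvPolynomial (Fin n) K, p.IsHomogeneous k → Λ (q * p) = 0) → q ∈ I)
    (hd2 : dimQ I (k + 2) + 1 = dimQ I k) : False := by
  classical
  have hfk := finite_Rj I k
  have hfk1 := finite_Rj I (k + 1)
  have hfk2 := finite_Rj I (k + 1 + 1)
  have hsurj : Function.Surjective (mulR I (lin_hom w) k) := by
    intro b
    obtain ⟨p, hp, hpb⟩ := exists_of_mem_Rj I b.2
    obtain ⟨q, hq, hpq⟩ := hs p hp
    refine ⟨⟨Ideal.Quotient.mk I q, mk_mem_Rj I hq⟩, Subtype.ext ?_⟩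
    show Ideal.Quotient.mk I (lin w) * Ideal.Quotient.mk I q = b.1
    rw [← hpb, ← map_mul]
    exact (Ideal.Quotient.eq.2 hpq).symm
  have hinj : Function.Injective (mulR I (lin_hom w) k) := by
    refine (LinearMap.injective_iff_surjective_of_finrank_eq_finrank ?_).2 hsurj
    rw [← dimQ_eq, ← dimQ_eq, hd1]
  have hi : ∀ q : MvPolynomial (Fin n) K, q.IsHomogeneous k → lin w * q ∈ I → q ∈ I := by
    intro q hq hqI
    have h1 : mulR I (lin_hom w) k ⟨Ideal.Quotient.mk I q, mk_mem_Rj I hq⟩ = 0 := by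
      apply Subtype.ext
      show Ideal.Quotient.mk I (lin w) * Ideal.Quotient.mk I q = 0
      rw [← map_mul]
      exact Ideal.Quotient.eq_zero_iff_mem.2 hqI
    have h2 := (injective_iff_map_eq_zero _).1 hinj _ h1
    exact Ideal.Quotient.eq_zero_iff_mem.1 (congrArg Subtype.val h2)
  have hs2 : ∀ p : MvPolynomial (Fin n) K, p.IsHomogeneous (k + 2) →
      ∃ q : MvPolynomial (Fin n) K, q.IsHomogeneous (k + 1) ∧ p - lin w * q ∈ I := by
    intro p hp
    have key : ∀ m : Fin n →₀ ℕ, m.degree = k + 2 → ∃ q : MvPolynomial (Fin n) K,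
        q.IsHomogeneous (k + 1) ∧ monomial m 1 - lin w * q ∈ I := by
      intro m hm
      have hex : ∃ j, m j ≠ 0 := by
        by_contra h1
        push Not at h1
        have : m = 0 := by ext a; exact h1 a
        rw [this, map_zero] at hm
        omega
      obtain ⟨j, hj⟩ := hex
      have e1 := sub_single_add hj
      have e2 : (m - Finsupp.single j 1).degree = k + 1 := by
        have := congrArg Finsupp.degree e1
        rw [map_add, Finsupp.degree_single] at this
        omega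
      obtain ⟨q, hq, hq2⟩ := hs (monomial (m - Finsupp.single j 1) 1) (isHomogeneous_monomial _ e2)
      refine ⟨X j * q, hom_succ (isHomogeneous_X K j) hq, ?_⟩
      have e3 : lin w * (X j * q) = X j * (lin w * q) := by ring
      have e4 : (monomial m 1 : MvPolynomial (Fin n) K) =
          X j * monomial (m - Finsupp.single j 1) 1 := by
        rw [X_mul_monomial, e1]
      rw [e3, e4, ← mul_sub]
      exact Ideal.mul_mem_left I (X j) hq2
    have h1 : ∀ m ∈ p.support, m.degree = k + 2 := by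
      intro m hm
      have := hp (mem_support_iff.1 hm)
      rw [Finsupp.degree_eq_weight_one]
      exact this
    choose f hf1 hf2 using key
    refine ⟨∑ m ∈ p.support.attach, C (coeff m.1 p) * f m.1 (h1 m.1 m.2), ?_, ?_⟩
    · refine IsHomogeneous.sum _ _ _ fun m _ => ?_
      have := (isHomogeneous_C (Fin n) (coeff m.1 p)).mul (hf1 m.1 (h1 m.1 m.2))
      rwa [zero_add] at this
    · have e0 : p = ∑ m ∈ p.support.attach, monomial m.1 (coeff m.1 p) := by
        conv_lhs => rw [p.as_sum]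
        rw [← sum_attach]
      have e5 : p - lin w * ∑ m ∈ p.support.attach, C (coeff m.1 p) * f m.1 (h1 m.1 m.2) =
          ∑ m ∈ p.support.attach, C (coeff m.1 p) * (monomial m.1 1 - lin w * f m.1 (h1 m.1 m.2)) := by
        rw [mul_sum]
        refine (congrArg (fun z => z - ∑ m ∈ p.support.attach,
          lin w * (C (coeff m.1 p) * f m.1 (h1 m.1 m.2))) e0).trans ?_
        beta_reduce
        rw [← sum_sub_distrib]
        refine sum_congr rfl fun m _ => ?_
        have e1 : (monomial m.1 (coeff m.1 p) : MvPolynomial (Fin n) K) =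
            C (coeff m.1 p) * monomial m.1 1 := by
          rw [C_mul_monomial, mul_one]
        rw [e1]
        ring
      rw [e5]
      exact Ideal.sum_mem _ fun m _ => Ideal.mul_mem_left _ _ (hf2 _ _)
  have hsurj2 : Function.Surjective (mulR I (lin_hom w) (k + 1)) := by
    intro b
    obtain ⟨p, hp, hpb⟩ := exists_of_mem_Rj I b.2
    obtain ⟨q, hq, hpq⟩ := hs2 p hp
    refine ⟨⟨Ideal.Quotient.mk I q, mk_mem_Rj I hq⟩, Subtype.ext ?_⟩
    show Ideal.Quotient.mk I (lin w) * Ideal.Quotient.mk I q = b.1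
    rw [← hpb, ← map_mul]
    exact (Ideal.Quotient.eq.2 hpq).symm
  obtain ⟨φ, hφd⟩ : ∃ φ : Rj I k →ₗ[K] Rj I (k + 1 + 1),
    φ = mulR I (lin_hom w) (k + 1) ∘ₗ mulR I (lin_hom w) k := ⟨_, rfl⟩
  have hφ : ∀ x : Rj I k, (φ x).1 = Ideal.Quotient.mk I (lin w) *
      (Ideal.Quotient.mk I (lin w) * x.1) := by
    intro x
    rw [hφd]
    rfl
  have hφs : Function.Surjective φ := by
    rw [hφd]
    exact hsurj2.comp hsurj
  have hrk := LinearMap.finrank_range_add_finrank_ker φ
  rw [LinearMap.range_eq_top.2 hφs, finrank_top, ← dimQ_eq, ← dimQ_eq] at hrk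
  have hker : Module.finrank K (LinearMap.ker φ) = 1 := by
    have : dimQ I (k + 1 + 1) = dimQ I (k + 2) := rfl
    omega
  have hfree : Module.Free K (LinearMap.ker φ) := Module.Free.of_divisionRing K (LinearMap.ker φ)
  obtain ⟨v, hv0, hv⟩ := (finrank_eq_one_iff' (K := K) (V := LinearMap.ker φ)).1 hker
  obtain ⟨w0, hw0, hwv⟩ := exists_of_mem_Rj I v.1.2
  refine core k I G hIG hG w hs hi Λ hΛ ?_ w0 hw0 ?_ ?_ ?_
  · intro q hq hq2
    exact hi q hq (hnd _ (hom_succ (lin_hom w) hq) hq2)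
  · have h1 : φ v.1 = 0 := v.2
    have h2 := congrArg Subtype.val h1
    rw [hφ, ← hwv, ← map_mul, ← map_mul] at h2
    exact Ideal.Quotient.eq_zero_iff_mem.1 h2
  · intro h1
    apply hv0
    apply Subtype.ext
    apply Subtype.ext
    rw [← hwv]
    exact Ideal.Quotient.eq_zero_iff_mem.2 h1
  · intro q hq hq2
    have h1 : φ ⟨Ideal.Quotient.mk I q, mk_mem_Rj I hq⟩ = 0 := by
      apply Subtype.ext
      rw [hφ, ← map_mul, ← map_mul]
      exact Ideal.Quotient.eq_zero_iff_mem.2 hq2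
    obtain ⟨c, hc⟩ := hv ⟨⟨Ideal.Quotient.mk I q, mk_mem_Rj I hq⟩, h1⟩
    refine ⟨c, ?_⟩
    have h2 : c • v.1.1 = Ideal.Quotient.mk I q := by
      have := congrArg (fun x => x.1.1) hc
      exact this
    rw [← Ideal.Quotient.eq, ← h2, ← hwv, C_mul']
    rfl

/-- Lefschetz property in the form used -/
lemma lef_of (k : ℕ) (G : Set (MvPolynomial (Fin n) K)) (hG : ∀ g ∈ G, ∃ e, g.IsHomogeneous e)
    (w : Fin n → K) (p : MvPolynomial (Fin n) K) (hp : p.IsHomogeneous (k + 1))
    (h : p ∈ Ideal.span G ⊔ Ideal.span {lin w}) :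
    ∃ q : MvPolynomial (Fin n) K, q.IsHomogeneous k ∧ p - lin w * q ∈ Ideal.span G := by
  obtain ⟨b, hb, c, hc, hbc⟩ := Submodule.mem_sup.1 h
  obtain ⟨q, rfl⟩ := Ideal.mem_span_singleton'.1 hc
  refine ⟨homogeneousComponent k q, homogeneousComponent_isHomogeneous _ _, ?_⟩
  have h4 : homogeneousComponent (k + 1) b ∈ Ideal.span G := hc_mem_span _ hG _ _ hb
  have h7 : homogeneousComponent (k + 1) p = p := by
    rw [homogeneousComponent_of_mem hp, if_pos rfl]
  rw [← hc_lin_mul, ← h7, ← map_sub, ← hbc, mul_comm (lin w) q, add_sub_cancel_right]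
  exact h4

end gen

lemma bound1 (n d k : ℕ) (D : ℕ → ℕ → ℕ) (h0 : ∀ j, D j 0 ≤ 1)
    (hs : ∀ j r, j < d → D j (r + 1) ≤ D j r + D (j + 1) (r + 1))
    (hd : ∀ r, r ≤ k + 1 → D d r ≤ Nh n d r) (i : ℕ) :
    i ≤ d → ∀ r, r ≤ k + 1 → D (d - i) r ≤ Bd n d i r := by
  induction i with
  | zero =>
    intro _ r hr
    rw [Bd0]
    exact hd r hr
  | succ i ih =>
    intro hi r
    induction r with
    | zero =>
      intro _
      have h1 : Bd n d (i + 1) 0 = 1 := by
        rw [W555.KS.Bd_zero_right]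
      rw [h1]
      exact h0 _
    | succ r ihr =>
      intro hr
      have e1 := hs (d - (i + 1)) r (by omega)
      rw [show d - (i + 1) + 1 = d - i by omega] at e1
      have e2 := ihr (by omega)
      have e3 := ih (by omega) (r + 1) hr
      rw [Bds]
      omega

lemma bound2 (n d k t : ℕ) (D : ℕ → ℕ → ℕ) (h0 : ∀ j, D j 0 ≤ 1)
    (hs : ∀ j r, j < d → D j (r + 1) ≤ D j r + D (j + 1) (r + 1))
    (hd : ∀ r, r ≤ k + 1 → D d r ≤ Nh n d r) (ht : D d (k + 2) = t) (i : ℕ) :
    i ≤ d → D (d - i) (k + 2) + Nh n d (k + 2) ≤ Bd n d i (k + 2) + t := by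
  induction i with
  | zero =>
    intro _
    rw [Bd0, Nat.sub_zero, ht]
    omega
  | succ i ih =>
    intro hi
    have e1 : D (d - (i + 1)) (k + 2) ≤ D (d - (i + 1)) (k + 1) + D (d - (i + 1) + 1) (k + 2) :=
      hs (d - (i + 1)) (k + 1) (by omega)
    rw [show d - (i + 1) + 1 = d - i by omega] at e1
    have e2 := bound1 n d k D h0 hs hd (i + 1) hi (k + 1) le_rfl
    have e3 := ih (by omega)
    have e4 : Bd n d (i + 1) (k + 2) = Bd n d (i + 1) (k + 1) + Bd n d i (k + 2) := Bds n d i (k + 1)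
    omega

/-- the main theorem, from the combinatorial properties -/
theorem alg_main {n k : ℕ} (hn : 2 * k + 1 < n) (hk : 1 ≤ k) {L : Finset (Finset (Fin n))}
    (h : Good k L) : (miss L (k + 2)).card + 1 ≠ (n - k - 3).choose k := by
  classical
  intro hm
  obtain ⟨hdim, Λ, hΛ, hnd⟩ := dual_L hn h
  have hIJ := gens_LJ_le (aa n (2 * k + 1)) k h.cx
  have hag := fun e (he : e ≤ k + 1) p hp hpJ => agree (aa n (2 * k + 1)) k h.nb e he p hp hpJ
  have hdI : ∀ e, e ≤ k + 1 → dimQ (Ideal.span (gens (LJ k L) (aa n (2 * k + 1)))) e =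
      Nh n (2 * k + 1) e := by
    intro e he
    rw [← hdim e (by omega)]
    exact dimQ_congr _ _ _ fun p hp => ⟨fun h => hIJ h, hag e he p hp⟩
  -- Lefschetz
  have hT2 := t2' W357.KS.Fan.fan halg' n (2 * k + 1) L h.cx h.lef
  have hs : ∀ p : MvPolynomial (Fin n) (Kf (2 * k + 1 + 1) n), p.IsHomogeneous (k + 1) →
      ∃ q : MvPolynomial (Fin n) (Kf (2 * k + 1 + 1) n), q.IsHomogeneous k ∧
        p - lin (ww n (2 * k + 1)) * q ∈ Ideal.span (gens (LJ k L) (aa n (2 * k + 1))) := by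
    intro p hp
    have h1 := hT2 (k + 1) (by omega) p hp
    have h2 : srI (Kf (2 * k + 1 + 1) n) L ⊔
      Ideal.span (Set.range (fun i : Fin (2 * k + 1) => lf (gen (2 * k + 1 + 1) n i.castSucc))) =
        Ideal.span (gens L (aa n (2 * k + 1))) := by
      unfold gens srI
      rw [← Ideal.span_union]
      rfl
    rw [h2, show 2 * (k + 1) - (2 * k + 1) = 1 by omega, pow_one] at h1
    obtain ⟨q, hq, hpq⟩ := lef_of k _ (gens_hom L _) (ww n (2 * k + 1)) p hp h1
    exact ⟨q, hq, hag (k + 1) le_rfl _ (hp.sub (hom_succ (lin_hom _) hq)) hpq⟩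
  have hNk : Nh n (2 * k + 1) (k + 1) = Nh n (2 * k + 1) k := by
    rw [← Nh_symm n (2 * k + 1) k (by omega)]
    congr 1
    omega
  -- the dimension in degree k + 2
  have hup : dimQ (Ideal.span (gens (LJ k L) (aa n (2 * k + 1)))) (k + 2) ≤
      Nh n (2 * k + 1) (k + 2) + (miss L (k + 2)).card := by
    rw [← hdim (k + 2) (by omega)]
    exact upper _ k h.cx h.nb
  have hlo : (miss L (k + 2)).card + Nh n (2 * k + 1) (k + 2) ≤
      dimQ (Ideal.span (gens (LJ k L) (aa n (2 * k + 1)))) (k + 2) := by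
    have h1 := W386.KS.dlow W374.KS.minor n (2 * k + 1) (k + 1) (LJ k L) cx_LJ (by omega)
    have h2 : ((LJ k L).filter (fun σ => σ.card = k + 1 + 1)).card = nf (LJ k L) (k + 2) := rfl
    rw [h2, nf_LJ h.cx h.nb, faces_eq rfl hn h.cx h.card_le h.euler h.nb (k + 2) (by omega)] at h1
    have h3 := bound2 n (2 * k + 1) k
      (dimQ (Ideal.span (gens (LJ k L) (aa n (2 * k + 1)))) (k + 2))
      (fun j r => dimQ (Ij n (2 * k + 1) j (LJ k L)) r)
      (fun j => W563.KS.dim_zero _)
      (fun j r hj => (W563.KS.dstep n (2 * k + 1) j (LJ k L) hj).1 r)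
      (fun r hr => by
        show dimQ (Ij n (2 * k + 1) (2 * k + 1) (LJ k L)) r ≤ _
        rw [Ij_eq]
        exact (hdI r hr).le)
      (by
        show dimQ (Ij n (2 * k + 1) (2 * k + 1) (LJ k L)) (k + 2) = _
        rw [Ij_eq]) k (by omega)
    rw [show 2 * k + 1 - k = k + 1 by omega] at h3
    rw [show 2 * k + 1 + 1 - (k + 2) = k by omega] at h1
    have h4 : dimQ (Ij n (2 * k + 1) (k + 1) (LJ k L)) (k + 1 + 1) =
      dimQ (Ij n (2 * k + 1) (k + 1) (LJ k L)) (k + 2) := rfl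
    rw [h4] at h1
    omega
  have hNum : Nh n (2 * k + 1) k = Nh n (2 * k + 1) (k + 2) + (n - k - 3).choose k := by
    unfold Nh
    rw [if_neg (by omega), if_neg (by omega), min_eq_left (by omega), min_eq_right (by omega)]
    obtain ⟨k', rfl⟩ : ∃ k', k = k' + 1 := ⟨k - 1, by omega⟩
    obtain ⟨s, hs⟩ : ∃ s, n = s + (k' + 1) + 3 := ⟨n - (k' + 1) - 3, by omega⟩
    rw [show n - (2 * (k' + 1) + 1) - 1 + (k' + 1) = n - (k' + 1) - 3 + 1 by omega,
      show 2 * (k' + 1) + 1 - (k' + 1 + 2) = k' by omega,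
      show n - (2 * (k' + 1) + 1) - 1 + k' = n - (k' + 1) - 3 by omega, Nat.choose_succ_succ]
  refine no_codim_one k _ (gens' (aa n (2 * k + 1)) k L) (span_gens' _ k L) (gens'_hom _ k L)
    (ww n (2 * k + 1)) hs ?_ Λ (fun p hp => hΛ p (hIJ hp)) ?_ ?_
  · rw [hdI k (by omega), hdI (k + 1) le_rfl, hNk]
  · intro q hq hq2
    exact hag (k + 1) le_rfl _ hq (hnd _ hq hq2)
  · rw [hdI k (by omega)]
    omega

end Pool.Agent.N360.MF
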