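import Pool.Agent.N360.MF.Core
import Pool.Agent.W555.KS.Core

set_option autoImplicit false
set_option linter.unusedSectionVars false

/-!
# Points and duality

The Artinian reduction of the face ring of a complex `L` with the maximal possible number of facets
is the Artinian reduction of a set of points, one for every facet; duality in the middle degree
follows from the Cayley-Bacharach property.
-/

namespace Pool.Agent.N360.MF

open MvPolynomial Finset Pool.Agent.W555.KS

variable {K : Type} [Field K] {n : ℕ}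

lemma span_le_of_monomial (N : Submodule K (MvPolynomial (Fin n) K))
    (G : Set (MvPolynomial (Fin n) K))
    (h : ∀ g ∈ G, ∀ m : Fin n →₀ ℕ, monomial m 1 * g ∈ N) : ∀ p ∈ Ideal.span G, p ∈ N := by
  have key2 : ∀ g ∈ G, ∀ a : MvPolynomial (Fin n) K, a * g ∈ N := by
    intro g hg a
    rw [a.as_sum, sum_mul]
    refine Submodule.sum_mem _ fun m _ => ?_
    have e1 : (monomial m (coeff m a) : MvPolynomial (Fin n) K) = coeff m a • monomial m 1 := by
      rw [smul_monomial, smul_eq_mul, mul_one]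
    rw [e1, smul_mul_assoc]
    exact N.smul_mem _ (h g hg m)
  have key3 : ∀ p ∈ Ideal.span G, ∀ a : MvPolynomial (Fin n) K, a * p ∈ N := by
    intro p hp
    refine Submodule.span_induction ?_ ?_ ?_ ?_ hp
    · exact fun g hg a => key2 g hg a
    · intro a
      rw [mul_zero]
      exact N.zero_mem
    · intro x y _ _ hx hy a
      rw [mul_add]
      exact N.add_mem (hx a) (hy a)
    · intro b x _ hx a
      rw [smul_eq_mul, ← mul_assoc]
      exact hx _
  intro p hp
  have := key3 p hp 1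
  rwa [one_mul] at this

lemma hc_mem_span (G : Set (MvPolynomial (Fin n) K)) (hG : ∀ g ∈ G, ∃ e, g.IsHomogeneous e)
    (i : ℕ) (p : MvPolynomial (Fin n) K) (hp : p ∈ Ideal.span G) :
    homogeneousComponent i p ∈ Ideal.span G := by
  refine span_le_of_monomial (((Ideal.span G).restrictScalars K).comap (homogeneousComponent i)) G
    ?_ p hp
  intro g hg m
  obtain ⟨e, he⟩ := hG g hg
  show homogeneousComponent i (monomial m 1 * g) ∈ Ideal.span G
  rw [homogeneousComponent_of_mem ((isHomogeneous_monomial (1 : K) rfl).mul he)]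
  split_ifs with h
  · exact Ideal.mul_mem_left _ _ (Ideal.subset_span hg)
  · exact Ideal.zero_mem _

/-- the generators: squarefree monomials of the non-faces, and the linear forms -/
def gens {d : ℕ} (L : Finset (Finset (Fin n))) (a : Fin d → Fin n → K) :
    Set (MvPolynomial (Fin n) K) :=
  {p | ∃ σ, σ ∉ L ∧ p = ∏ v ∈ σ, X v} ∪ Set.range (fun i => lin (a i))

lemma prod_hom (s : Finset (Fin n)) :
    (∏ v ∈ s, (X v : MvPolynomial (Fin n) K)).IsHomogeneous s.card := by
  have := IsHomogeneous.prod s (fun v => (X v : MvPolynomial (Fin n) K)) (fun _ => 1)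
    fun _ _ => isHomogeneous_X _ _
  rwa [sum_const, smul_eq_mul, mul_one] at this

lemma gens_hom {d : ℕ} (L : Finset (Finset (Fin n))) (a : Fin d → Fin n → K) :
    ∀ g ∈ gens L a, ∃ e, g.IsHomogeneous e := by
  rintro g (⟨σ, _, rfl⟩ | ⟨i, rfl⟩)
  · exact ⟨_, prod_hom σ⟩
  · exact ⟨1, lin_hom _⟩

section points

variable {ι : Type} [Fintype ι] [DecidableEq ι] {d : ℕ}

/-- evaluation at the points -/
noncomputable def ev (y : ι → Fin n → K) : MvPolynomial (Fin n) K →ₗ[K] (ι → K) :=
  LinearMap.pi fun F => (aeval (y F) : MvPolynomial (Fin n) K →ₐ[K] K).toLinearMap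

lemma ev_apply (y : ι → Fin n → K) (p : MvPolynomial (Fin n) K) (F : ι) :
    ev y p F = aeval (y F) p := rfl

lemma ev_mul (y : ι → Fin n → K) (p q : MvPolynomial (Fin n) K) :
    ev y (p * q) = ev y p * ev y q := by
  funext F
  rw [Pi.mul_apply, ev_apply, ev_apply, ev_apply, map_mul]

/-- functions given by polynomials of degree less than `i` -/
noncomputable def VV (y : ι → Fin n → K) (i : ℕ) : Submodule K (ι → K) :=
  Submodule.span K {f | ∃ e, e < i ∧ ∃ p : MvPolynomial (Fin n) K, p.IsHomogeneous e ∧ f = ev y p}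

lemma ev_mem_VV (y : ι → Fin n → K) {i e : ℕ} (h : e < i) {p : MvPolynomial (Fin n) K}
    (hp : p.IsHomogeneous e) : ev y p ∈ VV y i :=
  Submodule.subset_span ⟨e, h, p, hp, rfl⟩

lemma VV_mono (y : ι → Fin n → K) {i j : ℕ} (h : i ≤ j) : VV y i ≤ VV y j := by
  refine Submodule.span_le.2 ?_
  rintro f ⟨e, he, p, hp, rfl⟩
  exact ev_mem_VV y (lt_of_lt_of_le he h) hp

lemma VV_zero (y : ι → Fin n → K) : VV y 0 = ⊥ := by
  rw [eq_bot_iff]
  refine Submodule.span_le.2 ?_
  rintro f ⟨e, he, p, hp, rfl⟩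
  exact absurd he (Nat.not_lt_zero _)

lemma ev_lin (y : ι → Fin n → K) (w : Fin n → K) (F : ι) : ev y (lin w) F = ∑ v, w v * y F v := by
  rw [ev_apply]
  unfold lin
  rw [map_sum]
  refine sum_congr rfl fun v _ => ?_
  rw [map_mul, aeval_C, aeval_X]
  rfl

lemma ev_prod (y : ι → Fin n → K) (s : Finset (Fin n)) (F : ι) :
    ev y (∏ v ∈ s, X v) F = ∏ v ∈ s, y F v := by
  rw [ev_apply, map_prod]
  exact prod_congr rfl fun v _ => aeval_X _ _

variable (L : Finset (Finset (Fin n))) (a : Fin d → Fin n → K) (y : ι → Fin n → K) (u : Fin d → K)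

lemma ev_hc_mem (h1 : ∀ F, ∀ σ, σ ∉ L → ∏ v ∈ σ, y F v = 0)
    (h2 : ∀ F i, ∑ v, a i v * y F v = u i) (i : ℕ) (p : MvPolynomial (Fin n) K)
    (hp : p ∈ Ideal.span (gens L a)) : ev y (homogeneousComponent i p) ∈ VV y i := by
  refine span_le_of_monomial ((VV y i).comap (ev y ∘ₗ homogeneousComponent i)) _ ?_ p hp
  rintro g hg m
  show ev y (homogeneousComponent i (monomial m 1 * g)) ∈ VV y i
  obtain ⟨e, he⟩ := gens_hom L a g hg
  rcases hg with ⟨σ, hσ, rfl⟩ | ⟨j, rfl⟩
  · rw [homogeneousComponent_of_mem ((isHomogeneous_monomial (1 : K) rfl).mul he)]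
    split_ifs with h
    · rw [ev_mul]
      have : ev y (∏ v ∈ σ, X v) = 0 := by
        funext F
        rw [ev_prod, h1 F σ hσ]
        rfl
      rw [this, mul_zero]
      exact Submodule.zero_mem _
    · rw [map_zero]
      exact Submodule.zero_mem _
  · rw [homogeneousComponent_of_mem ((isHomogeneous_monomial (1 : K) rfl).mul (lin_hom (a j)))]
    split_ifs with h
    · have e2 : ev y (monomial m 1 * lin (a j)) = u j • ev y (monomial m 1) := by
        rw [ev_mul]
        funext F
        rw [Pi.mul_apply, ev_lin, h2, Pi.smul_apply, smul_eq_mul, mul_comm]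
      show ev y (monomial m 1 * lin (a j)) ∈ VV y i
      rw [e2]
      exact Submodule.smul_mem _ _ (ev_mem_VV y (e := m.degree) (by omega)
        (isHomogeneous_monomial _ rfl))
    · rw [map_zero]
      exact Submodule.zero_mem _

lemma VV_succ (i : ℕ) : VV y (i + 1) = VV y i ⊔ (homogeneousSubmodule (Fin n) K i).map (ev y) := by
  apply le_antisymm
  · refine Submodule.span_le.2 ?_
    rintro f ⟨e, he, p, hp, rfl⟩
    rcases Nat.lt_succ_iff_lt_or_eq.1 he with h | h
    · exact Submodule.mem_sup_left (ev_mem_VV y h hp)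
    · subst h
      exact Submodule.mem_sup_right ⟨p, hp, rfl⟩
  · refine sup_le (VV_mono y (Nat.le_succ i)) ?_
    rintro f ⟨p, hp, rfl⟩
    exact ev_mem_VV y (Nat.lt_succ_self i) hp

lemma finite_Rj (I : Ideal (MvPolynomial (Fin n) K)) (i : ℕ) : Module.Finite K (Rj I i) := by
  have : FiniteDimensional K (homogeneousSubmodule (Fin n) K i) :=
    Module.Finite.iff_fg.2 (homogeneousSubmodule_fg (Fin n) K i)
  unfold Rj
  infer_instance

lemma dimQ_eq (I : Ideal (MvPolynomial (Fin n) K)) (i : ℕ) :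
    dimQ I i = Module.finrank K (Rj I i) := rfl

theorem V_step (h1 : ∀ F, ∀ σ, σ ∉ L → ∏ v ∈ σ, y F v = 0)
    (h2 : ∀ F i, ∑ v, a i v * y F v = u i) (i : ℕ) :
    Module.finrank K (VV y (i + 1)) ≤ Module.finrank K (VV y i) +
      dimQ (Ideal.span (gens L a)) i ∧
    (Module.finrank K (VV y (i + 1)) = Module.finrank K (VV y i) +
      dimQ (Ideal.span (gens L a)) i → ∀ p : MvPolynomial (Fin n) K, p.IsHomogeneous i →
        ev y p ∈ VV y i → p ∈ Ideal.span (gens L a)) := by
  set I := Ideal.span (gens L a) with hI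
  have hfin := finite_Rj I i
  let g0 : MvPolynomial (Fin n) K →ₗ[K] ((ι → K) ⧸ VV y i) :=
    (VV y i).mkQ ∘ₗ ev y ∘ₗ homogeneousComponent i
  let gl : (MvPolynomial (Fin n) K ⧸ I) →ₗ[K] ((ι → K) ⧸ VV y i) :=
    (Submodule.restrictScalars K I).liftQ g0 (fun p hp =>
      (Submodule.Quotient.mk_eq_zero _).2 (ev_hc_mem L a y u h1 h2 i p hp))
  have hgl : ∀ p, p.IsHomogeneous i → gl (Ideal.Quotient.mk I p) = (VV y i).mkQ (ev y p) := by
    intro p hp
    show (VV y i).mkQ (ev y (homogeneousComponent i p)) = _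
    rw [homogeneousComponent_of_mem hp, if_pos rfl]
  let g : Rj I i →ₗ[K] ((ι → K) ⧸ VV y i) := gl.domRestrict (Rj I i)
  have hrange : LinearMap.range g = (VV y (i + 1)).map (VV y i).mkQ := by
    apply le_antisymm
    · rintro _ ⟨b, rfl⟩
      obtain ⟨p, hp, hpb⟩ := exists_of_mem_Rj I b.2
      refine ⟨ev y p, ev_mem_VV y (Nat.lt_succ_self i) hp, ?_⟩
      rw [← hgl p hp, hpb]
      rfl
    · rw [VV_succ, Submodule.map_sup]
      refine sup_le ?_ ?_
      · rintro _ ⟨f, hf, rfl⟩
        have : (VV y i).mkQ f = 0 := (Submodule.Quotient.mk_eq_zero _).2 hf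
        rw [this]
        exact Submodule.zero_mem _
      · rintro _ ⟨_, ⟨p, hp, rfl⟩, rfl⟩
        exact ⟨⟨Ideal.Quotient.mk I p, mk_mem_Rj I hp⟩, hgl p hp⟩
  have hrn := LinearMap.finrank_range_add_finrank_ker ((VV y i).mkQ.domRestrict (VV y (i + 1)))
  have hr1 : LinearMap.range ((VV y i).mkQ.domRestrict (VV y (i + 1))) =
      (VV y (i + 1)).map (VV y i).mkQ := LinearMap.range_domRestrict _ _
  have hk1 : Module.finrank K (LinearMap.ker ((VV y i).mkQ.domRestrict (VV y (i + 1)))) =
      Module.finrank K (VV y i) := by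
    have e1 : LinearMap.ker ((VV y i).mkQ.domRestrict (VV y (i + 1))) =
        (VV y i).comap (VV y (i + 1)).subtype := by
      ext x
      rw [LinearMap.mem_ker, LinearMap.domRestrict_apply, Submodule.mkQ_apply,
        Submodule.Quotient.mk_eq_zero]
      rfl
    rw [e1]
    exact LinearEquiv.finrank_eq (Submodule.comapSubtypeEquivOfLe (VV_mono y (Nat.le_succ i)))
  rw [hr1, hk1, ← hrange] at hrn
  have hle := LinearMap.finrank_range_add_finrank_ker g
  rw [dimQ_eq]
  refine ⟨by omega, ?_⟩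
  intro heq p hp hpV
  have hker : Module.finrank K (LinearMap.ker g) = 0 := by omega
  have hker2 : LinearMap.ker g = ⊥ := Submodule.finrank_eq_zero.1 hker
  have hmem : (⟨Ideal.Quotient.mk I p, mk_mem_Rj I hp⟩ : Rj I i) ∈ LinearMap.ker g := by
    rw [LinearMap.mem_ker]
    show gl (Ideal.Quotient.mk I p) = 0
    rw [hgl p hp]
    exact (Submodule.Quotient.mk_eq_zero _).2 hpV
  rw [hker2, Submodule.mem_bot] at hmem
  exact Ideal.Quotient.eq_zero_iff_mem.1 (congrArg Subtype.val hmem)

end points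

end Pool.Agent.N360.MF
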