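import Pool.Agent.N360.MF.Main
import Pool.Agent.W289.KS.EmbS
import Pool.Agent.Helper206.BoxS.IoD

set_option autoImplicit false
set_option linter.unusedSectionVars false

/-!
# Simplicial spheres: conical homeomorphism with Euclidean space, ridges
-/

namespace Pool.Agent.N360.MF

open Finset Pool.Agent.W555.KS Pool.Agent.W289.KS Filter Topology

/-- Euclidean space -/
abbrev Eu (d : ℕ) := EuclideanSpace ℝ (Fin d)

/-- a homeomorphism of the cone over the realization with Euclidean space -/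
structure ConeHomeo {n : ℕ} (L : Finset (Finset (Fin n))) (d : ℕ) where
  F : (Fin n → ℝ) → Eu d
  G : Eu d → (Fin n → ℝ)
  Fc : ContinuousOn F (coneSet L)
  Fn : ∀ x ∈ coneSet L, ‖F x‖ = tot x
  GF : ∀ x ∈ coneSet L, G (F x) = x
  Gm : ∀ y, G y ∈ coneSet L
  FG : ∀ y, F (G y) = y
  Gc : ∀ y, y ≠ 0 → ContinuousAt G y

lemma smul_mem_cone {n : ℕ} {L : Finset (Finset (Fin n))} {x : Fin n → ℝ} (hx : x ∈ coneSet L)
    {t : ℝ} (ht : 0 ≤ t) : t • x ∈ coneSet L := by
  obtain ⟨h1, σ, hσ, h2⟩ := hx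
  refine ⟨fun i => ?_, σ, hσ, fun i hi => ?_⟩
  · rw [Pi.smul_apply, smul_eq_mul]
    exact mul_nonneg ht (h1 i)
  · rw [Pi.smul_apply, h2 i hi, smul_zero]

lemma rea_sub_cone {n : ℕ} {L : Finset (Finset (Fin n))} {x : Fin n → ℝ} (hx : x ∈ rea L) :
    x ∈ coneSet L := ⟨hx.1, hx.2.2⟩

lemma tot_smul {n : ℕ} (t : ℝ) (x : Fin n → ℝ) : tot (t • x) = t * tot x := by
  unfold tot
  rw [mul_sum]
  rfl

lemma tot_rea {n : ℕ} {L : Finset (Finset (Fin n))} {x : Fin n → ℝ} (hx : x ∈ rea L) :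
    tot x = 1 := hx.2.1

lemma rad_smul {n : ℕ} {L : Finset (Finset (Fin n))} {x : Fin n → ℝ} (hx : x ∈ rea L) {t : ℝ}
    (ht : t ≠ 0) : rad (t • x) = x := by
  unfold rad
  rw [tot_smul, tot_rea hx, mul_one, smul_smul, inv_mul_cancel₀ ht, one_smul]

/-- a homeomorphism of the realization with the sphere gives a conical homeomorphism -/
theorem exists_coneHomeo {n d : ℕ} {L : Finset (Finset (Fin n))} (h0 : ∅ ∈ L)
    (Φ : rea L ≃ₜ Metric.sphere (0 : Eu d) 1) : Nonempty (ConeHomeo L d) := by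
  classical
  let f : (Fin n → ℝ) → Eu d := fun x => if hx : x ∈ rea L then (Φ ⟨x, hx⟩).1 else 0
  have hf : ∀ (x) (hx : x ∈ rea L), f x = (Φ ⟨x, hx⟩).1 := fun x hx => dif_pos hx
  have hfn : ∀ x ∈ rea L, ‖f x‖ = 1 := by
    intro x hx
    rw [hf x hx]
    exact mem_sphere_zero_iff_norm.1 (Φ ⟨x, hx⟩).2
  have hfc : ContinuousOn f (rea L) := by
    rw [continuousOn_iff_continuous_domRestrict]
    have h1 : Continuous (fun x : rea L => (Φ x : Eu d)) := continuous_subtype_val.comp Φ.continuous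
    refine h1.congr ?_
    intro x
    exact (hf x.1 x.2).symm
  let g : Eu d → (Fin n → ℝ) := fun y => if hy : y ∈ Metric.sphere (0 : Eu d) 1 then
    (Φ.symm ⟨y, hy⟩).1 else 0
  have hg : ∀ (y) (hy : y ∈ Metric.sphere (0 : Eu d) 1), g y = (Φ.symm ⟨y, hy⟩).1 :=
    fun y hy => dif_pos hy
  have hgm : ∀ y ∈ Metric.sphere (0 : Eu d) 1, g y ∈ rea L := by
    intro y hy
    rw [hg y hy]
    exact (Φ.symm ⟨y, hy⟩).2
  have hgc : ContinuousOn g (Metric.sphere (0 : Eu d) 1) := by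
    rw [continuousOn_iff_continuous_domRestrict]
    have h1 : Continuous (fun y : Metric.sphere (0 : Eu d) 1 => (Φ.symm y : Fin n → ℝ)) :=
      continuous_subtype_val.comp Φ.symm.continuous
    refine h1.congr ?_
    intro y
    exact (hg y.1 y.2).symm
  have hgf : ∀ x ∈ rea L, g (f x) = x := by
    intro x hx
    have h1 : f x ∈ Metric.sphere (0 : Eu d) 1 := mem_sphere_zero_iff_norm.2 (hfn x hx)
    rw [hg _ h1]
    have h2 : (⟨f x, h1⟩ : Metric.sphere (0 : Eu d) 1) = Φ ⟨x, hx⟩ := Subtype.ext (hf x hx)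
    rw [h2, Homeomorph.symm_apply_apply]
  have hfg : ∀ y ∈ Metric.sphere (0 : Eu d) 1, f (g y) = y := by
    intro y hy
    rw [hf _ (hgm y hy)]
    have h2 : (⟨g y, hgm y hy⟩ : rea L) = Φ.symm ⟨y, hy⟩ := Subtype.ext (hg y hy)
    rw [h2, Homeomorph.apply_symm_apply]
  have hns : ∀ y : Eu d, y ≠ 0 → ‖y‖⁻¹ • y ∈ Metric.sphere (0 : Eu d) 1 := by
    intro y hy
    rw [mem_sphere_zero_iff_norm, norm_smul, norm_inv, norm_norm,
      inv_mul_cancel₀ (norm_ne_zero_iff.2 hy)]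
  refine ⟨⟨fun x => tot x • f (rad x), fun y => ‖y‖ • g (‖y‖⁻¹ • y), ?_, ?_, ?_, ?_, ?_, ?_⟩⟩
  · intro x hx
    have hxt := tot_nonneg hx.1
    rcases hxt.eq_or_lt with h1 | h1
    · have hbd : ∀ y ∈ coneSet L, ‖tot y • f (rad y)‖ ≤ tot y := by
        intro y hy
        rcases (tot_nonneg hy.1).eq_or_lt with hy0 | hy0
        · rw [← hy0]; simp
        · rw [norm_smul, hfn _ (rad_mem hy hy0.ne'), mul_one, Real.norm_of_nonneg hy0.le]
      have h3 : Tendsto tot (𝓝[coneSet L] x) (𝓝 0) := by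
        have h4 : Tendsto tot (𝓝 x) (𝓝 (tot x)) := (tot_cont (n := n)).continuousAt (x := x)
        rw [← h1] at h4
        exact h4.mono_left nhdsWithin_le_nhds
      have h5 : Tendsto (fun y => tot y • f (rad y)) (𝓝[coneSet L] x) (𝓝 0) :=
        squeeze_zero_norm' (eventually_nhdsWithin_of_forall hbd) h3
      show Tendsto (fun y => tot y • f (rad y)) (𝓝[coneSet L] x) (𝓝 (tot x • f (rad x)))
      rw [← h1, zero_smul]
      exact h5
    · have h7 := comp_cont hfc hx h1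
      exact (tot_cont.continuousAt.continuousWithinAt).smul h7
  · intro x hx
    rcases (tot_nonneg hx.1).eq_or_lt with h1 | h1
    · rw [← h1]; simp
    · rw [norm_smul, hfn _ (rad_mem hx h1.ne'), mul_one, Real.norm_of_nonneg h1.le]
  · intro x hx
    rcases (tot_nonneg hx.1).eq_or_lt with h1 | h1
    · have : x = 0 := tot_eq_zero hx.1 h1.symm
      subst this
      show ‖tot (0 : Fin n → ℝ) • f (rad 0)‖ • _ = _
      rw [← h1, zero_smul, norm_zero, zero_smul]
    · have h2 : ‖tot x • f (rad x)‖ = tot x := by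
        rw [norm_smul, hfn _ (rad_mem hx h1.ne'), mul_one, Real.norm_of_nonneg h1.le]
      show ‖tot x • f (rad x)‖ • g (‖tot x • f (rad x)‖⁻¹ • (tot x • f (rad x))) = x
      rw [h2, smul_smul, inv_mul_cancel₀ h1.ne', one_smul, hgf _ (rad_mem hx h1.ne'),
        tot_smul_rad h1.ne']
  · intro y
    by_cases hy : y = 0
    · subst hy
      show ‖(0 : Eu d)‖ • _ ∈ _
      rw [norm_zero, zero_smul]
      exact ⟨fun i => le_refl _, ∅, h0, fun i _ => rfl⟩
    · exact smul_mem_cone (rea_sub_cone (hgm _ (hns y hy))) (norm_nonneg y)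
  · intro y
    by_cases hy : y = 0
    · subst hy
      show tot (‖(0 : Eu d)‖ • _) • _ = _
      rw [norm_zero, zero_smul]
      have : tot (0 : Fin n → ℝ) = 0 := by unfold tot; simp
      rw [this, zero_smul]
    · have h1 := hgm _ (hns y hy)
      have h2 : ‖y‖ ≠ 0 := norm_ne_zero_iff.2 hy
      show tot (‖y‖ • g (‖y‖⁻¹ • y)) • f (rad (‖y‖ • g (‖y‖⁻¹ • y))) = y
      rw [tot_smul, tot_rea h1, mul_one, rad_smul h1 h2, hfg _ (hns y hy), smul_smul,
        mul_inv_cancel₀ h2, one_smul]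
  · intro y hy
    have h2 : ‖y‖ ≠ 0 := norm_ne_zero_iff.2 hy
    have h3 : ContinuousAt (fun y : Eu d => ‖y‖⁻¹ • y) y :=
      (continuous_norm.continuousAt.inv₀ h2).smul continuousAt_id
    have h4 : ContinuousWithinAt (fun y : Eu d => g (‖y‖⁻¹ • y)) {y | y ≠ 0} y := by
      refine ContinuousWithinAt.comp (g := g) (f := fun y : Eu d => ‖y‖⁻¹ • y)
        (t := Metric.sphere (0 : Eu d) 1) (hgc _ (hns y hy)) h3.continuousWithinAt ?_
      intro z hz
      exact hns z hz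
    have h5 : ContinuousAt (fun y : Eu d => g (‖y‖⁻¹ • y)) y :=
      h4.continuousAt (isOpen_ne.mem_nhds hy)
    exact continuous_norm.continuousAt.smul h5

end Pool.Agent.N360.MF
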