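import Pool.Agent.N360.MF.Top1

set_option autoImplicit false
set_option linter.unusedSectionVars false
set_option linter.unusedVariables false
set_option linter.deprecated false

/-!
# Ridges of simplicial spheres
-/

namespace Pool.Agent.N360.MF

open Finset Pool.Agent.W555.KS Pool.Agent.W289.KS Filter Topology

variable {n d : ℕ} {L : Finset (Finset (Fin n))}

/-- indicator vector -/
def ind (σ : Finset (Fin n)) : Fin n → ℝ := fun v => if v ∈ σ then 1 else 0

lemma ind_mem {σ : Finset (Fin n)} (hσ : σ ∈ L) : ind σ ∈ coneSet L := by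
  refine ⟨fun i => ?_, σ, hσ, fun i hi => if_neg hi⟩
  unfold ind
  split_ifs
  · exact zero_le_one
  · exact le_rfl

lemma tot_ind (σ : Finset (Fin n)) : tot (ind σ) = σ.card := by
  unfold tot ind
  rw [sum_ite_mem, univ_inter, sum_const, nsmul_eq_mul, mul_one]

lemma coord_le {z z0 : Eu d} {r : ℝ} (h : z ∈ Metric.closedBall z0 r) (j : Fin d) :
    |z j - z0 j| ≤ r := by
  have h1 : ‖z - z0‖ ≤ r := by rwa [← dist_eq_norm]
  have h2 := PiLp.norm_apply_le (z - z0) j
  rw [PiLp.sub_apply, Real.norm_eq_abs] at h2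
  exact h2.trans h1

/-- Lemma A: near the barycentre of a ridge in two facets there is nothing else -/
theorem two_pages (H : ConeHomeo L d) {ρ : Finset (Fin n)} (hρ : ρ.card + 1 = d) {u1 u2 : Fin n}
    (h12 : u1 ≠ u2) (h1 : u1 ∉ ρ) (h2 : u2 ∉ ρ) (hL1 : insert u1 ρ ∈ L) (hL2 : insert u2 ρ ∈ L) :
    ∃ ε > 0, ∀ x ∈ coneSet L, dist x (ind ρ) < ε →
      (∀ i, i ∉ insert u1 ρ → x i = 0) ∨ (∀ i, i ∉ insert u2 ρ → x i = 0) := by
  classical
  have hc : Fintype.card ↥(insert u1 ρ) = d := by
    rw [Fintype.card_coe, card_insert_of_notMem h1, hρ]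
  let e : ↥(insert u1 ρ) ≃ Fin d := Fintype.equivFinOfCardEq hc
  let j1 : Fin d := e ⟨u1, mem_insert_self _ _⟩
  let T : Eu d → (Fin n → ℝ) := fun z v => if v = u2 then max (-(z j1)) 0 else
    if h : v ∈ insert u1 ρ then max (z (e ⟨v, h⟩)) 0 else 0
  have T2 : ∀ z, T z u2 = max (-(z j1)) 0 := fun z => if_pos rfl
  have T1 : ∀ z v (hv : v ≠ u2) (h : v ∈ insert u1 ρ), T z v = max (z (e ⟨v, h⟩)) 0 := by
    intro z v hv h
    show (if v = u2 then _ else _) = _
    rw [if_neg hv, dif_pos h]
  have T0 : ∀ z v (hv : v ≠ u2) (h : v ∉ insert u1 ρ), T z v = 0 := by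
    intro z v hv h
    show (if v = u2 then _ else _) = _
    rw [if_neg hv, dif_neg h]
  have Tc : Continuous T := by
    refine continuous_pi fun v => ?_
    by_cases hv : v = u2
    · subst hv
      have : (fun z => T z v) = fun z : Eu d => max (-(z j1)) 0 := funext T2
      rw [this]
      fun_prop
    · by_cases h : v ∈ insert u1 ρ
      · have : (fun z => T z v) = fun z : Eu d => max (z (e ⟨v, h⟩)) 0 :=
          funext fun z => T1 z v hv h
        rw [this]
        fun_prop
      · have : (fun z => T z v) = fun z : Eu d => (0 : ℝ) := funext fun z => T0 z v hv h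
        rw [this]
        exact continuous_const
  have Tsupp : ∀ z, (∀ i, i ∉ insert u1 ρ → T z i = 0) ∨ (∀ i, i ∉ insert u2 ρ → T z i = 0) := by
    intro z
    rcases le_total 0 (z j1) with h | h
    · left
      intro i hi
      by_cases hv : i = u2
      · subst hv
        rw [T2, max_eq_right (by linarith)]
      · exact T0 z i hv hi
    · right
      intro i hi
      have hv : i ≠ u2 := fun h' => hi (by rw [h']; exact mem_insert_self _ _)
      by_cases hi1 : i ∈ insert u1 ρ
      · rw [T1 z i hv hi1]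
        have : i = u1 := by
          rcases mem_insert.1 hi1 with h3 | h3
          · exact h3
          · exact absurd (mem_insert_of_mem h3) hi
        subst this
        exact max_eq_right h
      · exact T0 z i hv hi1
  have Tm : ∀ z, T z ∈ coneSet L := by
    intro z
    have h0 : ∀ i, 0 ≤ T z i := by
      intro i
      by_cases hv : i = u2
      · subst hv
        rw [T2]
        exact le_max_right _ _
      · by_cases h : i ∈ insert u1 ρ
        · rw [T1 z i hv h]
          exact le_max_right _ _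
        · rw [T0 z i hv h]
    rcases Tsupp z with h | h
    · exact ⟨h0, _, hL1, h⟩
    · exact ⟨h0, _, hL2, h⟩
  let z0 : Eu d := WithLp.toLp 2 (fun j => if j = j1 then 0 else 1)
  have hz0 : ∀ j, z0 j = if j = j1 then 0 else 1 := fun j => rfl
  have Tz0 : T z0 = ind ρ := by
    funext v
    unfold ind
    by_cases hv : v = u2
    · subst hv
      rw [T2, hz0, if_pos rfl, if_neg h2, neg_zero, max_self]
    · by_cases h : v ∈ insert u1 ρ
      · rw [T1 z0 v hv h, hz0]
        by_cases h3 : v = u1
        · subst h3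
          rw [if_pos rfl, if_neg h1, max_self]
        · have h4 : v ∈ ρ := (mem_insert.1 h).resolve_left h3
          rw [if_neg, if_pos h4, max_eq_left zero_le_one]
          intro h5
          exact h3 (congrArg Subtype.val (e.injective h5))
      · rw [T0 z0 v hv h, if_neg (fun h3 => h (mem_insert_of_mem h3))]
  have hinj : Set.InjOn (fun z => H.F (T z)) (Metric.closedBall z0 (1 / 2)) := by
    intro z hz z' hz' hzz
    have h3 : T z = T z' := by
      rw [← H.GF _ (Tm z), ← H.GF _ (Tm z')]
      exact congrArg H.G hzz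
    ext j
    by_cases hj : j = j1
    · subst hj
      have e1 : max (z j1) 0 = max (z' j1) 0 := by
        have := congrFun h3 u1
        rwa [T1 z u1 h12 (mem_insert_self _ _), T1 z' u1 h12 (mem_insert_self _ _)] at this
      have e2 : max (-(z j1)) 0 = max (-(z' j1)) 0 := by
        have := congrFun h3 u2
        rwa [T2, T2] at this
      rcases le_total 0 (z j1) with h | h <;> rcases le_total 0 (z' j1) with h' | h'
      · rwa [max_eq_left h, max_eq_left h'] at e1
      · rw [max_eq_left h, max_eq_right h'] at e1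
        rw [max_eq_right (by linarith), max_eq_left (by linarith)] at e2
        linarith
      · rw [max_eq_right h, max_eq_left h'] at e1
        rw [max_eq_left (by linarith), max_eq_right (by linarith)] at e2
        linarith
      · rw [max_eq_left (by linarith), max_eq_left (by linarith)] at e2
        linarith
    · obtain ⟨v, rfl⟩ := e.surjective j
      have hv2 : v.1 ≠ u2 := by
        intro h
        have h4 := v.2
        rw [h] at h4
        rcases mem_insert.1 h4 with h5 | h5
        · exact h12 h5.symm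
        · exact h2 h5
      have e1 := congrFun h3 v.1
      rw [T1 z v.1 hv2 v.2, T1 z' v.1 hv2 v.2] at e1
      have e2 := abs_le.1 (coord_le hz (e v))
      have e3 := abs_le.1 (coord_le hz' (e v))
      rw [hz0, if_neg hj] at e2 e3
      rwa [max_eq_left (by linarith), max_eq_left (by linarith)] at e1
  have hcont : ContinuousOn (fun z => H.F (T z)) (Metric.closedBall z0 (1 / 2)) := by
    refine (H.Fc.comp Tc.continuousOn ?_)
    intro z _
    exact Tm z
  have hnh := Helper206.BoxS.IoD.image_mem_nhds (fun z => H.F (T z)) z0 (1 / 2) (by norm_num)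
    hcont hinj
  have hFt : Tendsto H.F (𝓝[coneSet L] (ind ρ)) (𝓝 (H.F (ind ρ))) := by
    have hmem : ind ρ ∈ coneSet L := by
      rw [← Tz0]
      exact Tm z0
    exact H.Fc _ hmem
  have hnh2 : (fun z => H.F (T z)) '' Metric.closedBall z0 (1 / 2) ∈ 𝓝 (H.F (ind ρ)) := by
    have h9 := hnh
    beta_reduce at h9
    rw [Tz0] at h9
    exact h9
  have h10 := hFt hnh2
  rw [Filter.mem_map, mem_nhdsWithin] at h10
  obtain ⟨U, hU, hU1, hU2⟩ := h10
  obtain ⟨ε, hε, hball⟩ := Metric.isOpen_iff.1 hU _ hU1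
  refine ⟨ε, hε, ?_⟩
  intro x hx hxd
  obtain ⟨z, _, hz⟩ := hU2 ⟨hball hxd, hx⟩
  have h11 : T z = x := by
    rw [← H.GF _ (Tm z), ← H.GF _ hx]
    exact congrArg H.G hz
  rw [← h11]
  exact Tsupp z

/-- Lemma B: the star of a small face is not contained in a small set -/
theorem no_boundary (H : ConeHomeo L d) {ρ A : Finset (Fin n)} (hρL : ρ ∈ L) (hne : ρ.Nonempty)
    (hρA : ρ ⊆ A) (hA : A.card ≤ d) (hρ : ρ.card < d) (hs : ∀ σ ∈ L, ρ ⊆ σ → σ ⊆ A) : False := by
  classical
  -- injection of A into Fin d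
  obtain ⟨ι, hι⟩ : ∃ ι : ↥A → Fin d, Function.Injective ι := by
    have : Fintype.card ↥A ≤ Fintype.card (Fin d) := by
      rw [Fintype.card_coe, Fintype.card_fin]
      exact hA
    obtain ⟨f⟩ := Function.Embedding.nonempty_of_card_le this
    exact ⟨f, f.injective⟩
  obtain ⟨j0, hj0⟩ : ∃ j0 : Fin d, ∀ a : ↥A, a.1 ∈ ρ → ι a ≠ j0 := by
    by_contra hcon
    push Not at hcon
    have h1 : (univ : Finset (Fin d)) ⊆ (univ.filter (fun a : ↥A => a.1 ∈ ρ)).image ι := by
      intro j _
      obtain ⟨a, ha, h⟩ := hcon j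
      exact mem_image.2 ⟨a, mem_filter.2 ⟨mem_univ _, ha⟩, h⟩
    have h2 := (card_le_card h1).trans card_image_le
    rw [card_univ, Fintype.card_fin] at h2
    have h3 : (univ.filter (fun a : ↥A => a.1 ∈ ρ)).card ≤ ρ.card := by
      refine card_le_card_of_injOn (fun a => a.1) (fun a ha => (mem_filter.1 ha).2) ?_
      intro a _ b _ h
      exact Subtype.ext h
    omega
  let P : (Fin n → ℝ) → Eu d := fun x => WithLp.toLp 2 (fun j => ∑ a : ↥A, if ι a = j then x a.1 else 0)
  have hP : ∀ x j, P x j = ∑ a : ↥A, if ι a = j then x a.1 else 0 := fun x j => rfl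
  have hPa : ∀ x a, P x (ι a) = x a.1 := by
    intro x a
    rw [hP, sum_eq_single a]
    · rw [if_pos rfl]
    · intro b _ hb
      rw [if_neg (fun h => hb (hι h))]
    · intro h
      exact absurd (mem_univ _) h
  have hPc : Continuous P := by
    have : Continuous (fun x : Fin n → ℝ => (fun j : Fin d => ∑ a : ↥A, if ι a = j then x a.1 else 0)) := by
      refine continuous_pi fun j => continuous_finsetSum _ fun a _ => ?_
      split_ifs
      · exact continuous_apply _
      · exact continuous_const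
    exact (PiLp.continuous_toLp 2 _).comp this
  have hmem := ind_mem hρL
  have hy0 : H.F (ind ρ) ≠ 0 := by
    intro h
    have h1 := H.Fn _ hmem
    rw [h, norm_zero, tot_ind] at h1
    have := card_pos.2 hne
    exact absurd h1.symm (by positivity)
  have hcont := H.Gc _ hy0
  rw [ContinuousAt, H.GF _ hmem] at hcont
  -- neighbourhood where G is close to ind ρ
  have hU : {x : Fin n → ℝ | ∀ v ∈ ρ, 0 < x v} ∈ 𝓝 (ind ρ) := by
    have h1 : IsOpen {x : Fin n → ℝ | ∀ v ∈ ρ, 0 < x v} := by
      have : {x : Fin n → ℝ | ∀ v ∈ ρ, 0 < x v} = ⋂ v ∈ ρ, {x | 0 < x v} := by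
        ext x
        simp only [Set.mem_ofPred_eq, Set.mem_iInter]
      rw [this]
      exact isOpen_biInter_finset fun v _ => isOpen_lt continuous_const (continuous_apply v)
    refine h1.mem_nhds ?_
    intro v hv
    unfold ind
    rw [if_pos hv]
    exact one_pos
  have h2 : H.G ⁻¹' {x : Fin n → ℝ | ∀ v ∈ ρ, 0 < x v} ∩ {y | y ≠ 0} ∈ 𝓝 (H.F (ind ρ)) :=
    Filter.inter_mem (hcont hU) (isOpen_ne.mem_nhds hy0)
  obtain ⟨r, hr, hball⟩ := Metric.nhds_basis_closedBall.mem_iff.1 h2
  have hsupp : ∀ y ∈ Metric.closedBall (H.F (ind ρ)) r, ∀ v, v ∉ A → H.G y v = 0 := by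
    intro y hy v hv
    have h3 := (hball hy).1
    obtain ⟨h4, σ, hσ, h5⟩ := H.Gm y
    have h6 : ρ ⊆ σ := by
      intro w hw
      by_contra h7
      have h8 := h3 w hw
      rw [h5 w h7] at h8
      exact lt_irrefl _ h8
    exact h5 v (fun h7 => hv (hs σ hσ h6 h7))
  have hinj : Set.InjOn (fun y => P (H.G y)) (Metric.closedBall (H.F (ind ρ)) r) := by
    intro y hy y' hy' hyy
    have h3 : H.G y = H.G y' := by
      funext v
      by_cases hv : v ∈ A
      · have := congrFun (congrArg (fun z : Eu d => (z : Fin d → ℝ)) hyy) (ι ⟨v, hv⟩)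
        have e1 : P (H.G y) (ι ⟨v, hv⟩) = P (H.G y') (ι ⟨v, hv⟩) := this
        rwa [hPa, hPa] at e1
      · rw [hsupp y hy v hv, hsupp y' hy' v hv]
    rw [← H.FG y, ← H.FG y', h3]
  have hcont2 : ContinuousOn (fun y => P (H.G y)) (Metric.closedBall (H.F (ind ρ)) r) := by
    intro y hy
    exact (hPc.continuousAt.comp (H.Gc y (hball hy).2)).continuousWithinAt
  have hnh := Helper206.BoxS.IoD.image_mem_nhds (fun y => P (H.G y)) (H.F (ind ρ)) r hr hcont2 hinj
  beta_reduce at hnh
  rw [H.GF _ hmem] at hnh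
  obtain ⟨ε, hε, hb⟩ := Metric.mem_nhds_iff.1 hnh
  have hPj0 : P (ind ρ) j0 = 0 := by
    rw [hP]
    refine sum_eq_zero fun a _ => ?_
    split_ifs with h
    · unfold ind
      rw [if_neg (fun h3 => hj0 a h3 h)]
    · rfl
  have hnn : ∀ y, 0 ≤ P (H.G y) j0 := by
    intro y
    rw [hP]
    refine sum_nonneg fun a _ => ?_
    split_ifs
    · exact (H.Gm y).1 _
    · exact le_rfl
  let w : Eu d := P (ind ρ) - EuclideanSpace.single j0 (ε / 2)
  have hw : w ∈ Metric.ball (P (ind ρ)) ε := by
    rw [Metric.mem_ball, dist_eq_norm]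
    show ‖P (ind ρ) - EuclideanSpace.single j0 (ε / 2) - P (ind ρ)‖ < ε
    rw [sub_sub_cancel_left, norm_neg, EuclideanSpace.norm_single, Real.norm_eq_abs,
      abs_of_pos (by linarith)]
    linarith
  obtain ⟨y, _, hy⟩ := hb hw
  have h3 := hnn y
  have h4 : P (H.G y) = w := hy
  rw [h4] at h3
  have h5 : w j0 = -(ε / 2) := by
    show (P (ind ρ) - EuclideanSpace.single j0 (ε / 2)) j0 = _
    rw [PiLp.sub_apply, hPj0, zero_sub]
    simp
  rw [h5] at h3
  linarith

end Pool.Agent.N360.MF
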