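import Pool.Agent.N360.MF.Top2

set_option autoImplicit false
set_option linter.unusedSectionVars false

namespace Pool.Agent.N360.MF

open Finset Pool.Agent.W555.KS Pool.Agent.W289.KS Filter Topology

variable {n d : ℕ} {L : Finset (Finset (Fin n))}

/-- the test point -/
lemma test_point {ρ X : Finset (Fin n)} (hX : ρ ∪ X ∈ L) (hd : Disjoint ρ X) {ε : ℝ} (hε : 0 < ε) :
    ∃ x ∈ coneSet L, dist x (ind ρ) < ε ∧ ∀ v ∈ X, x v ≠ 0 := by
  classical
  refine ⟨fun v => if v ∈ ρ then 1 else if v ∈ X then ε / 2 else 0, ⟨fun i => ?_, _, hX, ?_⟩, ?_, ?_⟩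
  · beta_reduce
    split_ifs
    · exact zero_le_one
    · linarith
    · exact le_rfl
  · intro i hi
    rw [mem_union, not_or] at hi
    beta_reduce
    rw [if_neg hi.1, if_neg hi.2]
  · rw [dist_pi_lt_iff hε]
    intro v
    unfold ind
    by_cases h : v ∈ ρ
    · rw [if_pos h, if_pos h, dist_self]
      exact hε
    · rw [if_neg h, if_neg h]
      split_ifs
      · rw [Real.dist_eq, sub_zero, abs_of_pos (by linarith)]
        linarith
      · rw [dist_self]
        exact hε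
  · intro v hv
    beta_reduce
    rw [if_neg (fun h => disjoint_left.1 hd h hv), if_pos hv]
    linarith

theorem card_le_of (hL : IsCx L) (H : ConeHomeo L d) (hd : 2 ≤ d) : ∀ σ ∈ L, σ.card ≤ d := by
  classical
  intro σ hσ
  by_contra hcon
  push Not at hcon
  obtain ⟨ρ, hρσ, hρ⟩ := exists_subset_card_eq (s := σ) (n := d - 1) (by omega)
  have h1 : 1 < (σ \ ρ).card := by
    rw [card_sdiff_of_subset hρσ]
    omega
  obtain ⟨u1, hu1, u2, hu2, h12⟩ := one_lt_card.1 h1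
  rw [Finset.mem_sdiff] at hu1 hu2
  have hL1 : insert u1 ρ ∈ L := hL.2 σ hσ _ (insert_subset hu1.1 hρσ)
  have hL2 : insert u2 ρ ∈ L := hL.2 σ hσ _ (insert_subset hu2.1 hρσ)
  obtain ⟨ε, hε, h⟩ := two_pages H (by omega) h12 hu1.2 hu2.2 hL1 hL2
  obtain ⟨x, hx, hxd, hx2⟩ := test_point (L := L) (ρ := ρ) (X := {u1, u2}) (hL.2 σ hσ _
    (union_subset hρσ (insert_subset hu1.1 (singleton_subset_iff.2 hu2.1)))) (by
      rw [disjoint_insert_right, disjoint_singleton_right]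
      exact ⟨hu1.2, hu2.2⟩) hε
  rcases h x hx hxd with h3 | h3
  · refine hx2 u2 (by simp) (h3 u2 ?_)
    rw [mem_insert, not_or]
    exact ⟨fun h => h12 h.symm, hu2.2⟩
  · refine hx2 u1 (by simp) (h3 u1 ?_)
    rw [mem_insert, not_or]
    exact ⟨h12, hu1.2⟩

/-- every nonempty small face has a coface -/
theorem exists_coface (hL : IsCx L) (H : ConeHomeo L d) {ρ : Finset (Fin n)} (hρL : ρ ∈ L)
    (hne : ρ.Nonempty) (hρ : ρ.card < d) : ∃ u, u ∉ ρ ∧ insert u ρ ∈ L := by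
  classical
  by_contra hcon
  push Not at hcon
  refine no_boundary H hρL hne (Subset.refl ρ) hρ.le hρ ?_
  intro σ hσ hρσ
  by_contra h1
  obtain ⟨u, hu, hu2⟩ := not_subset.1 h1
  exact hcon u hu2 (hL.2 σ hσ _ (insert_subset hu hρσ))

theorem ridge_of (hL : IsCx L) (H : ConeHomeo L d) {ρ : Finset (Fin n)} (hρL : ρ ∈ L)
    (hne : ρ.Nonempty) (hρ : ρ.card + 1 = d) :
    ∃ u v, u ≠ v ∧ ∀ x, x ∉ ρ ∧ insert x ρ ∈ L ↔ x = u ∨ x = v := by
  classical
  obtain ⟨u, hu, huL⟩ := exists_coface hL H hρL hne (by omega)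
  obtain ⟨v, huv, hv, hvL⟩ : ∃ v, u ≠ v ∧ v ∉ ρ ∧ insert v ρ ∈ L := by
    by_contra hcon
    push Not at hcon
    refine no_boundary H hρL hne (subset_insert u ρ) ?_ (by omega) ?_
    · rw [card_insert_of_notMem hu, hρ]
    · intro σ hσ hρσ
      by_contra h1
      obtain ⟨v, hv, hv2⟩ := not_subset.1 h1
      rw [mem_insert, not_or] at hv2
      exact hcon v (fun h => hv2.1 h.symm) hv2.2 (hL.2 σ hσ _ (insert_subset hv hρσ))
  refine ⟨u, v, huv, fun x => ⟨?_, ?_⟩⟩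
  · rintro ⟨hx, hxL⟩
    by_contra hcon
    push Not at hcon
    obtain ⟨ε, hε, h⟩ := two_pages H hρ huv hu hv huL hvL
    obtain ⟨y, hy, hyd, hy2⟩ := test_point (L := L) (ρ := ρ) (X := {x}) (by
      rw [union_comm]
      exact hxL) (disjoint_singleton_right.2 hx) hε
    rcases h y hy hyd with h3 | h3
    · refine hy2 x (by simp) (h3 x ?_)
      rw [mem_insert, not_or]
      exact ⟨hcon.1, hx⟩
    · refine hy2 x (by simp) (h3 x ?_)
      rw [mem_insert, not_or]
      exact ⟨hcon.2, hx⟩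
  · rintro (rfl | rfl)
    · exact ⟨hu, huL⟩
    · exact ⟨hv, hvL⟩

theorem pure_of (hL : IsCx L) (H : ConeHomeo L d) (hd : 2 ≤ d) {ρ : Finset (Fin n)} (hρL : ρ ∈ L)
    (hne : ρ.Nonempty) : ∃ σ ∈ L, ρ ⊆ σ ∧ σ.card = d := by
  classical
  have key : ∀ m, ∀ ρ ∈ L, ρ.Nonempty → ρ.card + m = d → ∃ σ ∈ L, ρ ⊆ σ ∧ σ.card = d := by
    intro m
    induction m with
    | zero => exact fun ρ hρ _ h => ⟨ρ, hρ, Subset.refl _, by omega⟩
    | succ m ih =>
      intro ρ hρ hne h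
      obtain ⟨u, hu, huL⟩ := exists_coface hL H hρ hne (by omega)
      obtain ⟨σ, hσ, h1, h2⟩ := ih _ huL (insert_nonempty _ _) (by
        rw [card_insert_of_notMem hu]
        omega)
      exact ⟨σ, hσ, (subset_insert _ _).trans h1, h2⟩
  have h1 := card_le_of hL H hd ρ hρL
  exact key (d - ρ.card) ρ hρL hne (by omega)

end Pool.Agent.N360.MF
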