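import Pool.Agent.N360.MF.Top3
import Pool.Agent.Helper611.ZBase

set_option autoImplicit false
set_option linter.unusedSectionVars false

/-!
# Links of simplicial spheres are acyclic below the top dimension
-/

namespace Pool.Agent.N360.MF

open Finset Pool.Agent.W555.KS Pool.Agent.W289.KS Filter Topology
open Pool.Agent.Helper611.ZBase (Cx bd sgn Acy realization IsBall)

variable {n d : ℕ} {L : Finset (Finset (Fin n))}

/-- faces without the apex -/
def dn (σ : Finset (Fin (n + 1))) : Finset (Fin n) := univ.filter (fun i : Fin n => i.castSucc ∈ σ)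

/-- add the apex -/
def up (σ : Finset (Fin n)) : Finset (Fin (n + 1)) := insert (Fin.last n) (σ.map Fin.castSuccEmb)

lemma mem_dn {σ : Finset (Fin (n + 1))} {i : Fin n} : i ∈ dn σ ↔ i.castSucc ∈ σ := by
  unfold dn
  rw [mem_filter]
  exact ⟨fun h => h.2, fun h => ⟨mem_univ _, h⟩⟩

lemma last_mem_up (σ : Finset (Fin n)) : Fin.last n ∈ up σ := mem_insert_self _ _

lemma cast_mem_up {σ : Finset (Fin n)} {i : Fin n} : i.castSucc ∈ up σ ↔ i ∈ σ := by
  unfold up
  rw [mem_insert, Finset.mem_map]
  constructor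
  · rintro (h | ⟨j, hj, h⟩)
    · exact absurd h (Fin.castSucc_lt_last i).ne
    · have : j = i := Fin.castSucc_injective n h
      rwa [← this]
  · intro h
    exact Or.inr ⟨i, h, rfl⟩

lemma dn_up (σ : Finset (Fin n)) : dn (up σ) = σ := by
  ext i
  rw [mem_dn, cast_mem_up]

lemma up_dn {σ : Finset (Fin (n + 1))} (h : Fin.last n ∈ σ) : up (dn σ) = σ := by
  ext x
  refine Fin.lastCases ?_ (fun i => ?_) x
  · exact ⟨fun _ => h, fun _ => last_mem_up _⟩
  · rw [cast_mem_up, mem_dn]

lemma card_up (σ : Finset (Fin n)) : (up σ).card = σ.card + 1 := by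
  unfold up
  rw [card_insert_of_notMem, card_map]
  rw [Finset.mem_map]
  rintro ⟨j, _, h⟩
  exact (Fin.castSucc_lt_last j).ne h

lemma up_mono {σ τ : Finset (Fin n)} : up σ ⊆ up τ ↔ σ ⊆ τ := by
  constructor
  · intro h i hi
    exact cast_mem_up.1 (h (cast_mem_up.2 hi))
  · intro h
    exact insert_subset_insert _ (map_subset_map.2 h)

lemma insert_up (σ : Finset (Fin n)) (i : Fin n) :
    insert i.castSucc (up σ) = up (insert i σ) := by
  unfold up
  rw [map_insert, insert_comm]
  rfl

lemma compl_up (σ : Finset (Fin n)) : (up σ)ᶜ = σᶜ.map Fin.castSuccEmb := by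
  ext x
  rw [mem_compl, Finset.mem_map]
  refine Fin.lastCases ?_ (fun i => ?_) x
  · constructor
    · intro h
      exact absurd (last_mem_up σ) h
    · rintro ⟨j, _, h⟩
      exact absurd h (Fin.castSucc_lt_last j).ne
  · rw [cast_mem_up]
    constructor
    · intro h
      exact ⟨i, mem_compl.2 h, rfl⟩
    · rintro ⟨j, hj, h⟩
      have : j = i := Fin.castSucc_injective n h
      rw [← this]
      exact mem_compl.1 hj

/-- the complex in the format of Helper611 -/
def toC (hL : IsCx L) : Cx (Fin n) := ⟨L, hL.1, hL.2⟩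

/-- the cone -/
def coneC (hL : IsCx L) : Cx (Fin (n + 1)) := ⟨coneCx L, by
    refine mem_filter.2 ⟨mem_univ _, ?_⟩
    have : univ.filter (fun i : Fin n => i.castSucc ∈ (∅ : Finset (Fin (n + 1)))) = ∅ := by
      ext i
      simp
    rw [this]
    exact hL.1, by
    intro σ hσ τ hτ
    refine mem_filter.2 ⟨mem_univ _, hL.2 _ (mem_filter.1 hσ).2 _ ?_⟩
    intro i hi
    rw [mem_filter] at hi ⊢
    exact ⟨hi.1, hτ hi.2⟩⟩

lemma mem_coneC (hL : IsCx L) {σ : Finset (Fin (n + 1))} : σ ∈ (coneC hL).faces ↔ dn σ ∈ L := by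
  show σ ∈ coneCx L ↔ _
  unfold coneCx
  rw [mem_filter]
  exact ⟨fun h => h.2, fun h => ⟨mem_univ _, h⟩⟩

/-- the cone over a sphere is a ball -/
theorem isBall_cone (hL : IsCx L) (H : ConeHomeo L d) : IsBall (coneC hL) d := by
  classical
  -- realization of the cone
  have h1 : ∀ x ∈ realization (coneC hL), (fun i : Fin n => x i.castSucc) ∈ coneSet L := by
    rintro x ⟨h0, h1, σ, hσ, h2⟩
    exact ⟨fun i => h0 _, dn σ, (mem_coneC hL).1 hσ, fun i hi => h2 _ (fun h => hi (mem_dn.2 h))⟩
  have h2 : ∀ x ∈ realization (coneC hL), tot (fun i : Fin n => x i.castSucc) + x (Fin.last n) = 1 := by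
    rintro x ⟨h0, h1, -⟩
    rw [Fin.sum_univ_castSucc] at h1
    exact h1
  have h3 : ∀ x ∈ realization (coneC hL),
      H.F (fun i : Fin n => x i.castSucc) ∈ Metric.closedBall (0 : Eu d) 1 := by
    intro x hx
    rw [mem_closedBall_zero_iff, H.Fn _ (h1 x hx)]
    have := h2 x hx
    have h0 := hx.1 (Fin.last n)
    linarith
  let Ψ : realization (coneC hL) → Metric.closedBall (0 : Eu d) 1 := fun x => ⟨_, h3 x.1 x.2⟩
  have hΨc : Continuous Ψ := by
    refine Continuous.subtype_mk ?_ _
    have h4 : ContinuousOn (fun x : Fin (n + 1) → ℝ => H.F (fun i : Fin n => x i.castSucc))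
        (realization (coneC hL)) := by
      refine H.Fc.comp (Continuous.continuousOn ?_) h1
      exact continuous_pi fun i => continuous_apply _
    exact continuousOn_iff_continuous_domRestrict.1 h4
  have hΨb : Function.Bijective Ψ := by
    constructor
    · intro x y hxy
      have h4 : H.F (fun i : Fin n => x.1 i.castSucc) = H.F (fun i : Fin n => y.1 i.castSucc) :=
        congrArg Subtype.val hxy
      have h5 : (fun i : Fin n => x.1 i.castSucc) = (fun i : Fin n => y.1 i.castSucc) := by
        rw [← H.GF _ (h1 x.1 x.2), ← H.GF _ (h1 y.1 y.2), h4]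
      apply Subtype.ext
      funext j
      refine Fin.lastCases ?_ (fun i => congrFun h5 i) j
      have e1 := h2 x.1 x.2
      have e2 := h2 y.1 y.2
      rw [h5] at e1
      linarith
    · rintro ⟨y, hy⟩
      rw [mem_closedBall_zero_iff] at hy
      have h4 := H.Gm y
      have h5 : tot (H.G y) = ‖y‖ := by
        rw [← H.Fn _ h4, H.FG]
      let x : Fin (n + 1) → ℝ := Fin.snoc (α := fun _ => ℝ) (H.G y) (1 - ‖y‖)
      have hx1 : ∀ i : Fin n, x i.castSucc = H.G y i := fun i => Fin.snoc_castSucc _ _ _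
      have hx2 : x (Fin.last n) = 1 - ‖y‖ := Fin.snoc_last _ _
      have hx : x ∈ realization (coneC hL) := by
        obtain ⟨h6, σ, hσ, h7⟩ := h4
        refine ⟨?_, ?_, up σ, (mem_coneC hL).2 (by rw [dn_up]; exact hσ), ?_⟩
        · intro j
          refine Fin.lastCases ?_ (fun i => ?_) j
          · rw [hx2]; linarith
          · rw [hx1]; exact h6 i
        · rw [Fin.sum_univ_castSucc, hx2]
          simp only [hx1]
          have h8 : ∑ i, H.G y i = ‖y‖ := h5
          rw [h8]
          ring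
        · intro j
          refine Fin.lastCases ?_ (fun i => ?_) j
          · intro h
            exact absurd (last_mem_up σ) h
          · intro h
            rw [hx1]
            exact h7 i (fun h' => h (cast_mem_up.2 h'))
      refine ⟨⟨x, hx⟩, Subtype.ext ?_⟩
      show H.F (fun i : Fin n => x i.castSucc) = y
      have h6 : (fun i : Fin n => x i.castSucc) = H.G y := funext hx1
      rw [h6, H.FG]
  have hcomp : CompactSpace (realization (coneC hL)) :=
    isCompact_iff_compactSpace.1 (Helper611.ZBase.realization_compact (coneC hL))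
  exact ⟨Continuous.homeoOfEquivCompactToT2 (f := Equiv.ofBijective Ψ hΨb) hΨc⟩

lemma sgn_smul2 {V : Type} [Fintype V] [LinearOrder V] (x : V) (ρ : Finset V) (a : ZMod 2) :
    sgn x ρ • a = a := by
  unfold sgn
  rcases neg_one_pow_eq_or ℤ ((ρ.filter (· < x)).card) with h | h
  · rw [h, one_smul]
  · rw [h, neg_smul, one_smul]
    revert a
    decide

lemma bd2 {V : Type} [Fintype V] [LinearOrder V] (c : Finset V → ZMod 2) (ρ : Finset V) :
    bd c ρ = ∑ x ∈ ρᶜ, c (insert x ρ) := by
  unfold bd
  exact sum_congr rfl fun x _ => sgn_smul2 _ _ _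

lemma bd_up (c : Finset (Fin (n + 1)) → ZMod 2) (ρ : Finset (Fin n)) :
    bd c (up ρ) = bd (fun σ => c (up σ)) ρ := by
  rw [bd2, bd2, compl_up, sum_map]
  refine sum_congr rfl fun i _ => ?_
  show c (insert i.castSucc (up ρ)) = _
  rw [insert_up]

/-- acyclicity of the links below the top dimension -/
theorem acy_L (hL : IsCx L) (H : ConeHomeo L d) (τ : Finset (Fin n)) (j : ℕ) (hj : j + 1 ≤ d) :
    Acy (toC hL) (ZMod 2) τ j := by
  classical
  have hcone : Acy (coneC hL) (ZMod 2) (up τ) (j + 1) :=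
    Helper611.ZBase.acy_change (R := ℤ) (coneC hL) (up τ) d
      (fun k hk => Helper611.ZBase.acy_ball (coneC hL) d (isBall_cone hL H) (up τ) k hk) (j + 1) hj
  intro c hc hbd
  obtain ⟨b, hb, hb2⟩ := hcone (fun σ => if Fin.last n ∈ σ then c (dn σ) else 0) (by
    intro σ hσ

    split_ifs at hσ with h
    · obtain ⟨h1, h2, h3⟩ := hc _ hσ
      refine ⟨(mem_coneC hL).2 h1, ?_, ?_⟩
      · rw [← up_dn h]
        exact up_mono.2 h2
      · rw [← up_dn h, card_up, h3]
    · exact absurd rfl hσ) (by
    intro ρ hρ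
    have h : Fin.last n ∈ ρ := hρ (last_mem_up τ)
    rw [← up_dn h, bd_up]
    have h2 : (fun σ : Finset (Fin n) => (if Fin.last n ∈ up σ then c (dn (up σ)) else 0)) = c := by
      funext σ
      rw [if_pos (last_mem_up σ), dn_up]
    beta_reduce
    rw [h2]
    refine hbd _ ?_
    rw [← up_dn h] at hρ
    exact up_mono.1 hρ)
  refine ⟨fun σ => b (up σ), ?_, ?_⟩
  · intro σ hσ
    obtain ⟨h1, h2, h3⟩ := hb _ hσ
    rw [card_up] at h3
    refine ⟨?_, up_mono.1 h2, by omega⟩
    have := (mem_coneC hL).1 h1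
    rwa [dn_up] at this
  · intro ρ hρ
    rw [← bd_up, hb2 _ (up_mono.2 hρ), if_pos (last_mem_up ρ), dn_up]

end Pool.Agent.N360.MF
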