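import Pool.Agent.N360.MF.Top4

set_option autoImplicit false
set_option linter.unusedSectionVars false

/-!
# Strong connectivity and the Euler relations
-/

namespace Pool.Agent.N360.MF

open Finset Pool.Agent.W555.KS
open Pool.Agent.Helper611.ZBase (Cx bd sgn Acy)

variable {n d : ℕ} {L : Finset (Finset (Fin n))}

lemma z2 (a : ZMod 2) : a + a = 0 := by revert a; decide

lemma sym_zero {V : Type} [DecidableEq V] (A : Finset V) (g : V → V → ZMod 2)
    (h1 : ∀ z w, g z w = g w z) (h2 : ∀ z, g z z = 0) : ∑ z ∈ A, ∑ w ∈ A, g z w = 0 := by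
  rw [← sum_product']
  refine sum_involution (fun p _ => (p.2, p.1)) ?_ ?_ ?_ ?_
  · rintro ⟨z, w⟩ _
    show g z w + g w z = 0
    rw [h1 w z, z2]
  · rintro ⟨z, w⟩ _ h h3
    have h4 : w = z := congrArg Prod.fst h3
    subst h4
    exact h (h2 w)
  · rintro ⟨z, w⟩ h
    rw [mem_product] at h ⊢
    exact ⟨h.2, h.1⟩
  · rintro ⟨z, w⟩ _
    rfl

lemma insert_eq_iff {τ : Finset (Fin n)} {x y : Fin n} (hx : x ∉ τ) (hy : y ∉ τ) :
    insert y τ = insert x τ ↔ y = x := by
  constructor
  · intro h
    have : y ∈ insert x τ := by rw [← h]; exact mem_insert_self _ _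
    exact (mem_insert.1 this).resolve_right hy
  · rintro rfl
    rfl

/-- strong connectivity of stars -/
theorem conn_star (hL : IsCx L) (H : ConeHomeo L d) (hd : 2 ≤ d) (m : ℕ) :
    ∀ τ : Finset (Fin n), τ.card + m = d → ∀ S : Finset (Fin n) → Prop,
      (∀ ρ ∈ L, τ ⊆ ρ → ρ.card + 1 = d → ∀ u v, u ∉ ρ → v ∉ ρ → insert u ρ ∈ L →
        insert v ρ ∈ L → S (insert u ρ) → S (insert v ρ)) →
      ∀ F ∈ L, τ ⊆ F → F.card = d → ∀ F' ∈ L, τ ⊆ F' → F'.card = d → S F → S F' := by
  classical
  induction m with
  | zero =>
    intro τ hτ S hS F hF h1 h2 F' hF' h3 h4 h5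
    have e1 : τ = F := eq_of_subset_of_card_le h1 (by omega)
    have e2 : τ = F' := eq_of_subset_of_card_le h3 (by omega)
    rw [← e2, e1]
    exact h5
  | succ m ih =>
    intro τ hτ S hS F hF h1 h2 F' hF' h3 h4 h5
    have hex : ∀ G : Finset (Fin n), τ ⊆ G → G.card = d → ∃ x, x ∈ G ∧ x ∉ τ := by
      intro G hG hGc
      by_contra hcon
      push Not at hcon
      have := card_le_card (show G ⊆ τ from hcon)
      omega
    obtain ⟨x, hxF, hxτ⟩ := hex F h1 h2
    obtain ⟨x', hxF', hxτ'⟩ := hex F' h3 h4
    have hτL : τ ∈ L := hL.2 F hF τ h1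
    rcases Nat.eq_zero_or_pos m with hm | hm
    · -- τ is a ridge
      subst hm
      have e1 : insert x τ = F := eq_of_subset_of_card_le (insert_subset hxF h1) (by
        rw [card_insert_of_notMem hxτ]; omega)
      have e2 : insert x' τ = F' := eq_of_subset_of_card_le (insert_subset hxF' h3) (by
        rw [card_insert_of_notMem hxτ']; omega)
      rw [← e2]
      refine hS τ hτL (Subset.refl _) (by omega) x x' hxτ hxτ' (by rw [e1]; exact hF)
        (by rw [e2]; exact hF') ?_
      rw [e1]
      exact h5
    · -- the induction hypothesis for a vertex of the link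
      have ih' : ∀ z, z ∉ τ → ∀ G ∈ L, insert z τ ⊆ G → G.card = d → ∀ G' ∈ L, insert z τ ⊆ G' →
          G'.card = d → S G → S G' := by
        intro z hz
        refine ih (insert z τ) (by rw [card_insert_of_notMem hz]; omega) S ?_
        intro ρ hρ hρτ
        exact hS ρ hρ ((subset_insert _ _).trans hρτ)
      obtain ⟨A, hA⟩ : ∃ A : Finset (Fin n), ∀ z, z ∈ A ↔ z ∉ τ ∧ insert z τ ∈ L ∧
          ∀ G ∈ L, insert z τ ⊆ G → G.card = d → S G :=
        ⟨univ.filter (fun z => z ∉ τ ∧ insert z τ ∈ L ∧
          ∀ G ∈ L, insert z τ ⊆ G → G.card = d → S G), fun z => by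
            rw [mem_filter]
            exact ⟨fun h => h.2, fun h => ⟨mem_univ _, h⟩⟩⟩
      have hxA : x ∈ A := (hA x).2 ⟨hxτ, hL.2 F hF _ (insert_subset hxF h1), fun G hG hG1 hG2 =>
        ih' x hxτ F hF (insert_subset hxF h1) h2 G hG hG1 hG2 h5⟩
      have hAcl : ∀ z ∈ A, ∀ w, w ∉ insert z τ → insert w (insert z τ) ∈ L → w ∈ A := by
        intro z hz w hw hwL
        obtain ⟨hz1, hz2, hz3⟩ := (hA z).1 hz
        rw [mem_insert, not_or] at hw
        have hsub : insert w τ ⊆ insert w (insert z τ) := insert_subset_insert _ (subset_insert _ _)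
        refine (hA w).2 ⟨hw.2, hL.2 _ hwL _ hsub, ?_⟩
        obtain ⟨G, hG, hG1, hG2⟩ := pure_of hL H hd hwL (insert_nonempty _ _)
        have hSG : S G := hz3 G hG ((subset_insert _ _).trans hG1) hG2
        exact fun G' hG' hG1' hG2' => ih' w hw.2 G hG (hsub.trans hG1) hG2 G' hG' hG1' hG2' hSG
      by_cases hx'A : x' ∈ A
      · exact ((hA x').1 hx'A).2.2 F' hF' (insert_subset hxF' h3) h4
      · exfalso
        have hxx : x ≠ x' := fun h => hx'A (by rw [← h]; exact hxA)
        have hacy := acy_L hL H τ (τ.card + 1) (by omega)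
        obtain ⟨c, hc⟩ : ∃ c : Finset (Fin n) → ZMod 2, ∀ σ, c σ =
            (if σ = insert x τ then 1 else 0) + (if σ = insert x' τ then 1 else 0) :=
          ⟨_, fun _ => rfl⟩
        obtain ⟨b, hb1, hb2⟩ := hacy c (by
          intro σ hσ
          have h6 : σ = insert x τ ∨ σ = insert x' τ := by
            by_contra hcon
            rw [not_or] at hcon
            rw [hc, if_neg hcon.1, if_neg hcon.2, add_zero] at hσ
            exact hσ rfl
          rcases h6 with rfl | rfl
          · exact ⟨hL.2 F hF _ (insert_subset hxF h1), subset_insert _ _,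
              card_insert_of_notMem hxτ⟩
          · exact ⟨hL.2 F' hF' _ (insert_subset hxF' h3), subset_insert _ _,
              card_insert_of_notMem hxτ'⟩) (by
          intro ρ hρ
          rw [bd2]
          by_cases hρτ : ρ = τ
          · subst hρτ
            have e1 : ∑ y ∈ ρᶜ, c (insert y ρ) = ∑ y ∈ ρᶜ,
                ((if y = x then 1 else 0) + (if y = x' then 1 else 0)) := by
              refine sum_congr rfl fun y hy => ?_
              rw [mem_compl] at hy
              rw [hc]
              simp only [insert_eq_iff hxτ hy, insert_eq_iff hxτ' hy]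
            rw [e1, sum_add_distrib, sum_ite_eq', sum_ite_eq', if_pos (mem_compl.2 hxτ),
              if_pos (mem_compl.2 hxτ'), z2]
          · refine sum_eq_zero fun y hy => ?_
            rw [mem_compl] at hy
            have h6 : τ.card < ρ.card := card_lt_card (ssubset_of_subset_of_ne hρ (Ne.symm hρτ))
            have h7 : ∀ z, z ∉ τ → insert y ρ ≠ insert z τ := by
              intro z hz h8
              have h9 := congrArg card h8
              rw [card_insert_of_notMem hy, card_insert_of_notMem hz] at h9
              omega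
            rw [hc, if_neg (h7 x hxτ), if_neg (h7 x' hxτ'), add_zero])
        have e1 : ∑ z ∈ A, c (insert z τ) = 1 := by
          have : ∀ z ∈ A, c (insert z τ) = (if z = x then 1 else 0) := by
            intro z hz
            have hzτ := ((hA z).1 hz).1
            rw [hc]
            have h6 : ¬ insert z τ = insert x' τ := by
              rw [insert_eq_iff hxτ' hzτ]
              rintro rfl
              exact hx'A hz
            rw [if_neg h6, add_zero]
            simp only [insert_eq_iff hxτ hzτ]
          rw [sum_congr rfl this, sum_ite_eq', if_pos hxA]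
        have e2 : ∑ z ∈ A, c (insert z τ) = ∑ z ∈ A, ∑ w ∈ A,
            (if w = z then 0 else b (insert w (insert z τ))) := by
          refine sum_congr rfl fun z hz => ?_
          have hzτ := ((hA z).1 hz).1
          rw [← hb2 _ (subset_insert _ _), bd2]
          have e3 : ∑ w ∈ (insert z τ)ᶜ, b (insert w (insert z τ)) =
              ∑ w, (if w ∈ insert z τ then 0 else b (insert w (insert z τ))) := by
            rw [← sum_filter_add_sum_filter_not univ (fun w => w ∈ insert z τ)]
            rw [sum_eq_zero (s := univ.filter (fun w => w ∈ insert z τ)), zero_add]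
            · refine sum_congr ?_ ?_
              · ext w
                rw [mem_compl, mem_filter]
                exact ⟨fun h => ⟨mem_univ _, h⟩, fun h => h.2⟩
              · intro w hw
                rw [mem_filter] at hw
                rw [if_neg hw.2]
            · intro w hw
              rw [if_pos (mem_filter.1 hw).2]
          rw [e3, ← sum_subset (subset_univ A)]
          · refine sum_congr rfl fun w hw => ?_
            have hwτ := ((hA w).1 hw).1
            by_cases hwz : w = z
            · rw [if_pos hwz, if_pos (by rw [hwz]; exact mem_insert_self _ _)]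
            · rw [if_neg hwz, if_neg]
              rw [mem_insert, not_or]
              exact ⟨hwz, hwτ⟩
          · intro w _ hw
            split_ifs with h6
            · rfl
            · by_contra h7
              exact hw (hAcl z hz w h6 (hb1 _ h7).1)
        rw [e1, sym_zero A (fun z w => if w = z then 0 else b (insert w (insert z τ)))] at e2
        · exact one_ne_zero e2
        · intro z w
          by_cases h : w = z
          · rw [if_pos h, if_pos h.symm]
          · rw [if_neg h, if_neg (fun h' => h h'.symm), Finset.insert_comm]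
        · intro z
          rw [if_pos rfl]

end Pool.Agent.N360.MF
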