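import Pool.Agent.N360.MF.Top5

set_option autoImplicit false
set_option linter.unusedSectionVars false

/-!
# The Euler relations
-/

namespace Pool.Agent.N360.MF

open Finset Pool.Agent.W555.KS
open Pool.Agent.Helper611.ZBase (Cx bd sgn Acy)

variable {n d : ℕ} {L : Finset (Finset (Fin n))}

/-- chains supported on the sets in `S` -/
def CS (S : Finset (Finset (Fin n))) : Submodule (ZMod 2) (Finset (Fin n) → ZMod 2) where
  carrier := {c | ∀ σ, σ ∉ S → c σ = 0}
  add_mem' := by
    intro a b ha hb σ hσ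
    rw [Pi.add_apply, ha σ hσ, hb σ hσ, add_zero]
  zero_mem' := fun _ _ => rfl
  smul_mem' := by
    intro r a ha σ hσ
    rw [Pi.smul_apply, ha σ hσ, smul_zero]

lemma mem_CS {S : Finset (Finset (Fin n))} {c : Finset (Fin n) → ZMod 2} :
    c ∈ CS S ↔ ∀ σ, σ ∉ S → c σ = 0 := Iff.rfl

lemma finrank_CS (S : Finset (Finset (Fin n))) : Module.finrank (ZMod 2) (CS S) = S.card := by
  classical
  let e : CS S ≃ₗ[ZMod 2] (↥S → ZMod 2) :=
    { toFun := fun c s => c.1 s.1
      map_add' := fun a b => rfl
      map_smul' := fun r a => rfl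
      invFun := fun f => ⟨fun σ => if h : σ ∈ S then f ⟨σ, h⟩ else 0, fun σ hσ => dif_neg hσ⟩
      left_inv := by
        intro c
        apply Subtype.ext
        funext σ
        show (if h : σ ∈ S then c.1 σ else 0) = c.1 σ
        by_cases h : σ ∈ S
        · rw [dif_pos h]
        · rw [dif_neg h, c.2 σ h]
      right_inv := by
        intro f
        funext s
        show (if h : s.1 ∈ S then f ⟨s.1, h⟩ else 0) = f s
        rw [dif_pos s.2] }
  rw [e.finrank_eq, Module.finrank_fintype_fun_eq_card, Fintype.card_coe]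

/-- the boundary relative to the star of `τ` -/
def dl (τ : Finset (Fin n)) : (Finset (Fin n) → ZMod 2) →ₗ[ZMod 2] (Finset (Fin n) → ZMod 2) where
  toFun c ρ := if τ ⊆ ρ then ∑ x ∈ ρᶜ, c (insert x ρ) else 0
  map_add' := by
    intro a b
    funext ρ
    rw [Pi.add_apply]
    split_ifs
    · rw [← sum_add_distrib]
      rfl
    · rw [add_zero]
  map_smul' := by
    intro r a
    funext ρ
    rw [Pi.smul_apply, RingHom.id_apply]
    split_ifs
    · rw [smul_sum]
      rfl
    · rw [smul_zero]

lemma dl_pos {τ ρ : Finset (Fin n)} (h : τ ⊆ ρ) (c : Finset (Fin n) → ZMod 2) :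
    dl τ c ρ = bd c ρ := by
  rw [bd2]
  exact if_pos h

lemma dl_neg {τ ρ : Finset (Fin n)} (h : ¬ τ ⊆ ρ) (c : Finset (Fin n) → ZMod 2) :
    dl τ c ρ = 0 := if_neg h

lemma dl_dl (τ : Finset (Fin n)) (c : Finset (Fin n) → ZMod 2) : dl τ (dl τ c) = 0 := by
  funext ρ
  by_cases h : τ ⊆ ρ
  · rw [dl_pos h]
    have : bd (dl τ c) ρ = bd (bd c) ρ := by
      rw [bd2, bd2]
      exact sum_congr rfl fun x _ => dl_pos (h.trans (subset_insert _ _)) c
    rw [this, Helper611.ZBase.bd_bd]
    rfl
  · rw [dl_neg h]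
    rfl

/-- faces with `j` elements containing `τ` -/
def st (L : Finset (Finset (Fin n))) (τ : Finset (Fin n)) (j : ℕ) : Finset (Finset (Fin n)) :=
  L.filter (fun σ => τ ⊆ σ ∧ σ.card = j)

lemma mem_st {τ σ : Finset (Fin n)} {j : ℕ} : σ ∈ st L τ j ↔ σ ∈ L ∧ τ ⊆ σ ∧ σ.card = j := by
  unfold st
  rw [mem_filter]

/-- cycles -/
def Zc (L : Finset (Finset (Fin n))) (τ : Finset (Fin n)) (j : ℕ) :
    Submodule (ZMod 2) (Finset (Fin n) → ZMod 2) := CS (st L τ j) ⊓ LinearMap.ker (dl τ)

lemma rank_null (C : Submodule (ZMod 2) (Finset (Fin n) → ZMod 2))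
    (f : (Finset (Fin n) → ZMod 2) →ₗ[ZMod 2] (Finset (Fin n) → ZMod 2)) :
    Module.finrank (ZMod 2) (C.map f) + Module.finrank (ZMod 2) ↥(C ⊓ LinearMap.ker f) =
      Module.finrank (ZMod 2) C := by
  have h1 := LinearMap.finrank_range_add_finrank_ker (f.domRestrict C)
  rw [LinearMap.range_domRestrict] at h1
  rw [← h1]
  congr 1
  have h2 : LinearMap.ker (f.domRestrict C) = (LinearMap.ker f).comap C.subtype := rfl
  rw [h2, ← Submodule.map_comap_subtype]
  exact Submodule.finrank_map_subtype_eq _ _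

lemma card_st (L : Finset (Finset (Fin n))) (τ : Finset (Fin n)) (j : ℕ) :
    Module.finrank (ZMod 2) ((CS (st L τ j)).map (dl τ)) + Module.finrank (ZMod 2) (Zc L τ j) =
      (st L τ j).card := by
  rw [← finrank_CS]
  exact rank_null _ _

lemma map_eq (hL : IsCx L) (H : ConeHomeo L d) (τ : Finset (Fin n)) (j : ℕ) (hj : j + 1 ≤ d) :
    (CS (st L τ (j + 1))).map (dl τ) = Zc L τ j := by
  apply le_antisymm
  · rintro _ ⟨c, hc, rfl⟩
    refine ⟨?_, dl_dl τ c⟩
    intro σ hσ
    by_cases h : τ ⊆ σ
    · rw [dl_pos h, bd2]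
      refine sum_eq_zero fun x hx => hc _ ?_
      rw [mem_compl] at hx
      intro h1
      obtain ⟨h2, h3, h4⟩ := mem_st.1 h1
      rw [card_insert_of_notMem hx] at h4
      exact hσ (mem_st.2 ⟨hL.2 _ h2 _ (subset_insert _ _), h, by omega⟩)
    · exact dl_neg h c
  · rintro c ⟨hc, hc2⟩
    obtain ⟨b, hb1, hb2⟩ := acy_L hL H τ j hj c (by
      intro σ hσ
      by_contra hcon
      exact hσ (hc σ (fun h => hcon (mem_st.1 h)))) (by
      intro ρ hρ
      rw [← dl_pos hρ c]
      exact congrFun hc2 ρ)
    refine ⟨b, ?_, ?_⟩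
    · intro σ hσ
      by_contra hcon
      exact hσ (mem_st.2 (hb1 σ hcon))
    · funext ρ
      by_cases h : τ ⊆ ρ
      · rw [dl_pos h, hb2 ρ h]
      · rw [dl_neg h]
        refine (hc ρ (fun h1 => h (mem_st.1 h1).2.1)).symm

lemma map_zero_eq (L : Finset (Finset (Fin n))) (τ : Finset (Fin n)) :
    (CS (st L τ 0)).map (dl τ) = ⊥ := by
  rw [eq_bot_iff]
  rintro _ ⟨c, hc, rfl⟩
  rw [Submodule.mem_bot]
  funext σ
  by_cases h : τ ⊆ σ
  · rw [dl_pos h, bd2]
    refine sum_eq_zero fun x hx => hc _ ?_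
    rw [mem_compl] at hx
    intro h1
    have h4 := (mem_st.1 h1).2.2
    rw [card_insert_of_notMem hx] at h4
    omega
  · exact dl_neg h c

lemma alt_sum (hL : IsCx L) (H : ConeHomeo L d) (τ : Finset (Fin n)) (m : ℕ) (hm : m ≤ d) :
    ∑ j ∈ range (m + 1), (-1 : ℤ) ^ j * ((st L τ j).card : ℤ) =
      (-1) ^ m * (Module.finrank (ZMod 2) (Zc L τ m) : ℤ) := by
  induction m with
  | zero =>
    rw [sum_range_one, pow_zero, one_mul, one_mul]
    have := card_st L τ 0
    rw [map_zero_eq, finrank_bot, zero_add] at this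
    rw [this]
  | succ m ih =>
    rw [sum_range_succ, ih (by omega)]
    have := card_st L τ (m + 1)
    rw [map_eq hL H τ m hm] at this
    rw [← this]
    push_cast
    ring

/-- the top cycles form a line -/
lemma finrank_top (hL : IsCx L) (H : ConeHomeo L d) (hd : 2 ≤ d) (τ : Finset (Fin n))
    (hτ : τ ∈ L) (hne : L ≠ {∅}) : Module.finrank (ZMod 2) (Zc L τ d) = 1 := by
  classical
  -- a facet containing τ
  obtain ⟨F0, hF0, hF0τ, hF0c⟩ : ∃ F0 ∈ L, τ ⊆ F0 ∧ F0.card = d := by
    rcases τ.eq_empty_or_nonempty with rfl | h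
    · obtain ⟨σ, hσ, hσn⟩ : ∃ σ ∈ L, σ.Nonempty := by
        by_contra hcon
        push Not at hcon
        apply hne
        ext σ
        rw [mem_singleton]
        constructor
        · intro h
          exact hcon σ h
        · rintro rfl
          exact hL.1
      obtain ⟨F, hF, _, h2⟩ := pure_of hL H hd hσ hσn
      exact ⟨F, hF, empty_subset _, h2⟩
    · exact pure_of hL H hd hτ h
  obtain ⟨χ, hχ⟩ : ∃ χ : Finset (Fin n) → ZMod 2, ∀ σ, χ σ = if σ ∈ st L τ d then 1 else 0 :=
    ⟨_, fun _ => rfl⟩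
  have hχ0 : χ ≠ 0 := by
    intro h
    have h1 := congrFun h F0
    rw [hχ, if_pos (mem_st.2 ⟨hF0, hF0τ, hF0c⟩)] at h1
    exact one_ne_zero h1
  -- sums over ridges
  have hsum : ∀ (c : Finset (Fin n) → ZMod 2), c ∈ CS (st L τ d) → ∀ ρ ∈ L, ρ.card + 1 = d →
      ∀ u v, u ≠ v → (∀ x, x ∉ ρ ∧ insert x ρ ∈ L ↔ x = u ∨ x = v) →
      ∑ x ∈ ρᶜ, c (insert x ρ) = c (insert u ρ) + c (insert v ρ) := by
    intro c hc ρ hρ hρc u v huv h
    have hu := (h u).2 (Or.inl rfl)
    have hv := (h v).2 (Or.inr rfl)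
    rw [← sum_subset (s₁ := {u, v}) (s₂ := ρᶜ)]
    · rw [sum_pair huv]
    · intro x hx
      rw [mem_insert, mem_singleton] at hx
      rw [mem_compl]
      exact ((h x).2 hx).1
    · intro x hx hx2
      rw [mem_compl] at hx
      refine hc _ ?_
      intro h1
      exact hx2 (by
        rw [mem_insert, mem_singleton]
        exact (h x).1 ⟨hx, (mem_st.1 h1).1⟩)
  have hχZ : χ ∈ Zc L τ d := by
    refine ⟨fun σ hσ => by rw [hχ, if_neg hσ], ?_⟩
    show dl τ χ = 0
    funext ρ
    by_cases h : τ ⊆ ρ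
    · rw [dl_pos h, bd2]
      show _ = (0 : ZMod 2)
      by_cases h1 : ρ.card + 1 = d
      · by_cases h2 : ρ ∈ L
        · obtain ⟨u, v, huv, h3⟩ := ridge_of hL H h2 (card_pos.1 (by omega)) h1
          have hu := (h3 u).2 (Or.inl rfl)
          have hv := (h3 v).2 (Or.inr rfl)
          rw [hsum χ (fun σ hσ => by rw [hχ, if_neg hσ]) ρ h2 h1 u v huv h3, hχ, hχ,
            if_pos (mem_st.2 ⟨hu.2, h.trans (subset_insert _ _), by
              rw [card_insert_of_notMem hu.1]; exact h1⟩),
            if_pos (mem_st.2 ⟨hv.2, h.trans (subset_insert _ _), by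
              rw [card_insert_of_notMem hv.1]; exact h1⟩), z2]
        · refine sum_eq_zero fun x _ => ?_
          rw [hχ, if_neg]
          intro h3
          exact h2 (hL.2 _ (mem_st.1 h3).1 _ (subset_insert _ _))
      · refine sum_eq_zero fun x hx => ?_
        rw [mem_compl] at hx
        rw [hχ, if_neg]
        intro h3
        have h4 := (mem_st.1 h3).2.2
        rw [card_insert_of_notMem hx] at h4
        exact h1 h4
    · rw [dl_neg h]
      rfl
  have hspan : Zc L τ d = Submodule.span (ZMod 2) {χ} := by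
    apply le_antisymm
    · rintro c ⟨hc, hc2⟩
      rw [Submodule.mem_span_singleton]
      refine ⟨c F0, ?_⟩
      funext σ
      rw [Pi.smul_apply, hχ, smul_eq_mul]
      split_ifs with h
      · rw [mul_one]
        obtain ⟨h1, h2, h3⟩ := mem_st.1 h
        have h4 := conn_star hL H hd (d - τ.card) τ (by
          have := card_le_card h2
          omega) (fun F => c F = c F0) ?_ F0 hF0 hF0τ hF0c σ h1 h2 h3 rfl
        · exact h4.symm
        · intro ρ hρ hρτ hρc u v hu hv huL hvL hcu
          by_cases huv : u = v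
          · rw [← huv]
            exact hcu
          · obtain ⟨u', v', huv', h5⟩ := ridge_of hL H hρ (card_pos.1 (by omega)) hρc
            have hu' := (h5 u).1 ⟨hu, huL⟩
            have hv' := (h5 v).1 ⟨hv, hvL⟩
            have h6 : ∀ x, x ∉ ρ ∧ insert x ρ ∈ L ↔ x = u ∨ x = v := by
              intro x
              rw [h5]
              constructor
              · rintro (rfl | rfl)
                · rcases hu' with h | h
                  · exact Or.inl h.symm
                  · rcases hv' with h7 | h7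
                    · exact Or.inr h7.symm
                    · exact absurd (h.trans h7.symm) huv
                · rcases hu' with h | h
                  · rcases hv' with h7 | h7
                    · exact absurd (h.trans h7.symm) huv
                    · exact Or.inr h7.symm
                  · exact Or.inl h.symm
              · rintro (rfl | rfl)
                · exact hu'
                · exact hv'
            have h7 := hsum c hc ρ hρ hρc u v huv h6
            have h8 : dl τ c ρ = 0 := congrFun hc2 ρ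
            rw [dl_pos hρτ, bd2, h7] at h8
            have h9 : c (insert v ρ) = c (insert u ρ) := by
              have h10 := z2 (c (insert u ρ))
              rw [← h8] at h10
              exact (add_left_cancel h10).symm
            rw [h9]
            exact hcu
      · rw [mul_zero]
        exact (hc σ h).symm
    · rw [Submodule.span_singleton_le_iff_mem]
      exact hχZ
  rw [hspan]
  exact finrank_span_singleton hχ0

theorem euler_of (hL : IsCx L) (H : ConeHomeo L d) (hd : 2 ≤ d) (hne : L ≠ {∅})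
    (τ : Finset (Fin n)) (hτ : τ ∈ L) :
    ∑ F ∈ L.filter (fun F => τ ⊆ F), (-1 : ℤ) ^ F.card = (-1) ^ d := by
  classical
  have h1 := alt_sum hL H τ d le_rfl
  rw [finrank_top hL H hd τ hτ hne] at h1
  rw [Nat.cast_one, mul_one] at h1
  rw [← h1]
  rw [← sum_fiberwise_of_maps_to (s := L.filter (fun F => τ ⊆ F)) (t := range (d + 1))
    (g := fun F => F.card)]
  · refine sum_congr rfl fun j _ => ?_
    have h2 : (L.filter (fun F => τ ⊆ F)).filter (fun F => F.card = j) = st L τ j := by
      unfold st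
      rw [filter_filter]
    rw [h2]
    have h3 : ∀ F ∈ st L τ j, (-1 : ℤ) ^ F.card = (-1) ^ j := by
      intro F hF
      rw [(mem_st.1 hF).2.2]
    rw [sum_congr rfl h3, sum_const, nsmul_eq_mul, mul_comm]
  · intro F hF
    rw [mem_range]
    have := card_le_of hL H hd F (mem_filter.1 hF).1
    omega

end Pool.Agent.N360.MF
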